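import Mathlib
import Pool.Agent.Y491.BF.Stm
import Pool.Agent.H13R3.WB.Lin

/-!
# Project FP: the finite problems behind the balance constants.  Definitions and statements.

`prob P x y` is the probability that `x` comes before `y`, `balance P` the balance constant
(`Pool.Agent.H13R3.WB`).  `NP n` is the type of the posets on `{0, …, n - 1}` whose order is contained
in the natural order.  A step is a proposition `S_…`.
-/

set_option autoImplicit false

open Finset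
open scoped Classical

namespace Pool.Agent.Y491.FP

open Pool.Agent.TH161.LW Pool.Agent.H13R3.WB Pool.Agent.Y491.BF

/-- every element is incomparable to at most `K` elements -/
def Thin (K : ℕ) (P : Type) [Fintype P] [PartialOrder P] : Prop :=
  ∀ x : P, (univ.filter fun w : P => ¬ w ≤ x ∧ ¬ x ≤ w).card ≤ K

/-- a naturally labelled poset on `{0, …, n - 1}` -/
structure NP (n : ℕ) where
  rel : ℕ → ℕ → Prop
  refl : ∀ i, i < n → rel i i
  le : ∀ i j, i < n → j < n → rel i j → i ≤ j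
  trans : ∀ i j k, i < n → j < n → k < n → rel i j → rel j k → rel i k

/-- the poset -/
def NP.El {n : ℕ} (_p : NP n) : Type := Fin n

instance {n : ℕ} (p : NP n) : Fintype p.El := inferInstanceAs (Fintype (Fin n))

instance {n : ℕ} (p : NP n) : PartialOrder p.El where
  le a b := p.rel (Fin.val (n := n) a) (Fin.val (n := n) b)
  le_refl a := p.refl _ (Fin.isLt (n := n) a)
  le_trans a b c h1 h2 := p.trans _ _ _ (Fin.isLt (n := n) a) (Fin.isLt (n := n) b)
    (Fin.isLt (n := n) c) h1 h2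
  le_antisymm a b h1 h2 := Fin.ext (n := n)
    (le_antisymm (p.le _ _ (Fin.isLt (n := n) a) (Fin.isLt (n := n) b) h1)
      (p.le _ _ (Fin.isLt (n := n) b) (Fin.isLt (n := n) a) h2))

/-- the element with a given label -/
def NP.mk' {n : ℕ} (p : NP n) (i : ℕ) (h : i < n) : p.El := (⟨i, h⟩ : Fin n)

/-- the window of the elements with labels in `[s, t)` -/
def NP.win {n : ℕ} (p : NP n) (s t : ℕ) (h : t ≤ n) : NP (t - s) where
  rel i j := p.rel (s + i) (s + j)
  refl i hi := p.refl _ (by omega)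
  le i j hi hj hr := by
    have := p.le _ _ (by omega) (by omega) hr
    omega
  trans i j k hi hj hk h1 h2 := p.trans _ _ _ (by omega) (by omega) (by omega) h1 h2

/-- the probability that the element with label `x` comes before the one with label `y` -/
noncomputable def pp {n : ℕ} (p : NP n) (x y : ℕ) : ℝ :=
  if h : x < n ∧ y < n then prob p.El (p.mk' x h.1) (p.mk' y h.2) else 0

/-- the contraction factor -/
noncomputable def th (K : ℕ) : ℝ := 1 - 1 / (K.factorial : ℝ)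

/-- number of linear extensions of the subposet `S` with `x` before `y` -/
noncomputable def eF {α : Type} [Fintype α] [PartialOrder α] (S : Finset α) (x y : α) : ℕ :=
  if h : x ∈ S ∧ y ∈ S then eP {a : α // a ∈ S} ⟨x, h.1⟩ ⟨y, h.2⟩ else 0

/-- no cut: the poset is not an ordinal sum -/
def Irr {n : ℕ} (p : NP n) : Prop :=
  ∀ k, 0 < k → k < n → ∃ i j, i < k ∧ k ≤ j ∧ j < n ∧ ¬ p.rel i j

/-- every window of `q` of length at most `l` occurs in `p`, initial ones initially, final ones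
finally -/
def Like (l : ℕ) {m n : ℕ} (q : NP m) (p : NP n) : Prop :=
  ∀ s t, s ≤ t → t ≤ m → t ≤ s + l → ∃ s', s' + (t - s) ≤ n ∧ (s = 0 → s' = 0) ∧
    (t = m → s' + (t - s) = n) ∧
    ∀ i j, i < t - s → j < t - s → (q.rel (s + i) (s + j) ↔ p.rel (s' + i) (s' + j))

/-- (ISO) invariance under isomorphisms -/
def S_ISO : Prop := ∀ (P Q : Type) [Fintype P] [PartialOrder P] [Fintype Q] [PartialOrder Q]
  (e : P ≃o Q), (∀ x y, prob P x y = prob Q (e x) (e y)) ∧ balance P = balance Q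

/-- (SPL) cutting the linear extensions of an upper set at a given height -/
def S_SPL : Prop := ∀ (α : Type) [Fintype α] [PartialOrder α] (I : Finset α) (r : ℕ), Low I →
  I.card ≤ r → r ≤ Fintype.card α →
  (eS Iᶜ = ∑ A ∈ univ.filter (fun A : Finset α => Low A ∧ A.card = r ∧ I ⊆ A),
      eS (A \ I) * eS Aᶜ) ∧
  ∀ x y : α, (∀ A : Finset α, Low A → A.card = r → x ∉ A ∧ y ∉ A) →
    eF Iᶜ x y = ∑ A ∈ univ.filter (fun A : Finset α => Low A ∧ A.card = r ∧ I ⊆ A),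
      eS (A \ I) * eF Aᶜ x y

/-- (DOE) Doeblin contraction: removing an initial segment far below `x` and `y` -/
def S_DOE : Prop := ∀ (α : Type) [Fintype α] [PartialOrder α] (K m s : ℕ) (x y : α)
  (I : Finset α), Thin K α → Low I → I.card = s →
  (∀ A : Finset α, Low A → A.card ≤ s + m * K → x ∉ A ∧ y ∉ A) →
  |prob α x y - (eF Iᶜ x y : ℝ) / eS Iᶜ| ≤ th K ^ m

/-- (LOW) the same for naturally labelled posets -/
def S_LOW : Prop := ∀ (n : ℕ) (p : NP n) (K m s x y : ℕ), Thin K p.El → s + (m + 1) * K ≤ x →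
  s + (m + 1) * K ≤ y → x < n → y < n →
  |pp p x y - pp (p.win s n le_rfl) (x - s) (y - s)| ≤ th K ^ m

/-- (HIGH) the dual statement -/
def S_HIGH : Prop := ∀ (n : ℕ) (p : NP n) (K m t x y : ℕ) (h : t ≤ n), Thin K p.El →
  x + (m + 1) * K < t → y + (m + 1) * K < t →
  |pp p x y - pp (p.win 0 t h) x y| ≤ th K ^ m

/-- (LOC) locality -/
def S_LOC : Prop := ∀ (n : ℕ) (p : NP n) (K m s t x y : ℕ) (h : t ≤ n), Thin K p.El →
  s ≤ x → s ≤ y → x < t → y < t →
  (s = 0 ∨ (s + (m + 1) * K ≤ x ∧ s + (m + 1) * K ≤ y)) →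
  (t = n ∨ (x + (m + 1) * K < t ∧ y + (m + 1) * K < t)) →
  |pp p x y - pp (p.win s t h) (x - s) (y - s)| ≤ 2 * th K ^ m

/-- (SUM) between two cuts the probabilities do not change -/
def S_SUM : Prop := ∀ (n : ℕ) (p : NP n) (s t x y : ℕ) (h : t ≤ n),
  (∀ i j, i < s → s ≤ j → j < n → p.rel i j) → (∀ i j, i < t → t ≤ j → j < n → p.rel i j) →
  s ≤ x → x < t → s ≤ y → y < t → pp p x y = pp (p.win s t h) (x - s) (y - s)

/-- (BAND) incomparable elements have labels close to each other -/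
def S_BAND : Prop := ∀ (n : ℕ) (p : NP n) (K i j : ℕ), Thin K p.El → i < j → j < n →
  ¬ p.rel i j → j < i + 2 * K

/-- (WTH) windows of thin posets are thin -/
def S_WTH : Prop := ∀ (n : ℕ) (p : NP n) (K s t : ℕ) (h : t ≤ n), Thin K p.El →
  Thin K (p.win s t h).El

/-- (GLU) cut and paste at two places with equal windows -/
def S_GLU : Prop := ∀ (n : ℕ) (p : NP n) (K l L a b : ℕ), Thin K p.El → 1 ≤ l →
  l + 4 * K ≤ L → a < b → b + L + l ≤ n →
  (∀ i j, i < L → j < L → (p.rel (a + i) (a + j) ↔ p.rel (b + i) (b + j))) →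
  ∃ q : NP (n - (b - a)), Thin K q.El ∧ Like l q p ∧
    (∀ i j, i < a + L → j < a + L → (q.rel i j ↔ p.rel i j)) ∧
    (∀ i j, a ≤ i → i < n - (b - a) → a ≤ j → j < n - (b - a) →
      (q.rel i j ↔ p.rel (i + (b - a)) (j + (b - a))))

/-- (PIG) two equal windows -/
def S_PIG : Prop := ∀ (n : ℕ) (p : NP n) (L lo : ℕ), ∃ a b, lo ≤ a ∧ a < b ∧
  b ≤ lo + 2 ^ (L * L) ∧
  ∀ i j, i < L → j < L → (p.rel (a + i) (a + j) ↔ p.rel (b + i) (b + j))

/-- (RED) a short poset with the same windows, and with a marked window -/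
def S_RED : Prop := ∀ (n : ℕ) (p : NP n) (K l L z h : ℕ), Thin K p.El → 1 ≤ l →
  l + 4 * K ≤ L → h ≤ 2 * K → z + h ≤ n →
  ∃ (m : ℕ) (q : NP m) (z' : ℕ), m ≤ 2 * (2 ^ (L * L) + L + l + 2 * K + 3) ∧ (m = n ∨ L ≤ m) ∧
    Thin K q.El ∧ Like l q p ∧ z' + h ≤ m ∧
    ∀ i j, i < h → j < h → (q.rel (z' + i) (z' + j) ↔ p.rel (z + i) (z + j))

/-- (CMP) comparison of the balance constants -/
def S_CMP : Prop := ∀ (m n : ℕ) (q : NP m) (p : NP n) (K l k : ℕ), Thin K q.El → Thin K p.El →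
  2 * (k + 1) * K + 2 * K + 1 ≤ l → Like l q p →
  balance q.El ≤ balance p.El + 4 * th K ^ k

/-- (LIRR) cuts are visible in the windows -/
def S_LIRR : Prop := ∀ (m n : ℕ) (q : NP m) (p : NP n) (K l : ℕ), Thin K p.El →
  4 * K + 2 ≤ l → Like l q p → Irr p → Irr q

/-- (EXT) natural labellings exist -/
def S_EXT : Prop := ∀ (P : Type) [Fintype P] [PartialOrder P],
  ∃ p : NP (Fintype.card P), Nonempty (P ≃o p.El)

/-- (NOTD) the members of the class `𝒟` which are not ordinal sums -/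
def S_NOTD : Prop := ∀ (n : ℕ) (p : NP n), Irr p → InD p.El → n = 1 ∨ n = 3

/-- (BLK) a poset outside of `𝒟` has a summand outside of `𝒟` which is not an ordinal sum -/
def S_BLK : Prop := ∀ (n : ℕ) (p : NP n), 0 < n → ¬ InD p.El →
  ∃ (s t : ℕ) (h : t ≤ n), s < t ∧ Irr (p.win s t h) ∧ ¬ InD (p.win s t h).El ∧
    (∀ i j, i < s → s ≤ j → j < n → p.rel i j) ∧ (∀ i j, i < t → t ≤ j → j < n → p.rel i j)

/-- (BAL) the balance constant of a summand -/
def S_BAL : Prop := ∀ (n : ℕ) (p : NP n) (s t : ℕ) (h : t ≤ n),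
  (∀ i j, i < s → s ≤ j → j < n → p.rel i j) → (∀ i j, i < t → t ≤ j → j < n → p.rel i j) →
  balance (p.win s t h).El ≤ balance p.El

/-- (HALF) the balance constant is between `0` and `1/2` -/
def S_HALF : Prop := ∀ (P : Type) [Fintype P] [PartialOrder P], 0 ≤ balance P ∧ balance P ≤ 1 / 2

/-- (ANT) an antichain lies in a short window -/
def S_ANT : Prop := ∀ (n : ℕ) (p : NP n) (K : ℕ), Thin K p.El → 1 ≤ K →
  ∀ A : Finset p.El, IsAntichain (· ≤ ·) (A : Set p.El) →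
  ∃ z h, h ≤ 2 * K ∧ z + h ≤ n ∧
    ∀ a ∈ A, z ≤ Fin.val (n := n) a ∧ Fin.val (n := n) a < z + h

/-- (TRA) an antichain in a window occurs in every equal window -/
def S_TRA : Prop := ∀ (m n : ℕ) (q : NP m) (p : NP n) (z z' h : ℕ), z + h ≤ n → z' + h ≤ m →
  (∀ i j, i < h → j < h → (q.rel (z' + i) (z' + j) ↔ p.rel (z + i) (z + j))) →
  ∀ A : Finset p.El, IsAntichain (· ≤ ·) (A : Set p.El) →
  (∀ a ∈ A, z ≤ Fin.val (n := n) a ∧ Fin.val (n := n) a < z + h) →
  ∃ A' : Finset q.El, IsAntichain (· ≤ ·) (A' : Set q.El) ∧ A'.card = A.card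

/-- (NUM) the numbers -/
def S_NUM : Prop := ∀ B₀ : ℝ, 0 < B₀ → ∃ B : ℝ, 0 < B ∧ ∀ ε : ℝ, 0 < ε → ε ≤ 1 / 2 →
  ∃ k : ℕ, 4 * th ⌈Real.exp (B₀ * Real.log (2 / ε) ^ 3 / ε ^ 4)⌉₊ ^ k ≤ ε ∧
    ∀ K l L : ℕ, K = ⌈Real.exp (B₀ * Real.log (2 / ε) ^ 3 / ε ^ 4)⌉₊ →
      l = 2 * (k + 1) * K + 4 * K + 2 → L = l + 4 * K →
      ((2 * (2 ^ (L * L) + L + l + 2 * K + 3) : ℕ) : ℝ) ≤
        Real.exp (Real.exp (Real.exp (B * Real.log (2 / ε) ^ 3 / ε ^ 4)))

/-- (T1) first main theorem -/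
def S_T1 : Prop := ∃ B : ℝ, 0 < B ∧ ∀ ε : ℝ, 0 < ε → ε ≤ 1 / 2 →
  ∀ (P : Type) [Fintype P] [PartialOrder P] [Nonempty P], ¬ InD P →
  ∃ (Q : Type) (_ : Fintype Q) (_ : PartialOrder Q), Nonempty Q ∧ ¬ InD Q ∧
    (Fintype.card Q : ℝ) ≤ Real.exp (Real.exp (Real.exp (B * Real.log (2 / ε) ^ 3 / ε ^ 4))) ∧
    balance Q ≤ balance P + ε

/-- (T2) second main theorem -/
def S_T2 : Prop := ∃ B : ℝ, 0 < B ∧ ∀ ε : ℝ, 0 < ε → ε ≤ 1 / 2 →
  ∀ (w : ℕ) (P : Type) [Fintype P] [PartialOrder P], 2 ≤ w →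
  (∃ A : Finset P, IsAntichain (· ≤ ·) (A : Set P) ∧ A.card = w) →
  (∀ A : Finset P, IsAntichain (· ≤ ·) (A : Set P) → A.card ≤ w) →
  ∃ (Q : Type) (_ : Fintype Q) (_ : PartialOrder Q),
    (∃ A : Finset Q, IsAntichain (· ≤ ·) (A : Set Q) ∧ A.card = w) ∧
    (∀ A : Finset Q, IsAntichain (· ≤ ·) (A : Set Q) → A.card ≤ w) ∧
    (Fintype.card Q : ℝ) ≤ max (w : ℝ)
      (Real.exp (Real.exp (Real.exp (B * Real.log (2 / ε) ^ 3 / ε ^ 4)))) ∧
    balance Q ≤ balance P + ε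

end Pool.Agent.Y491.FP
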