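import Pool.Agent.Y491.FP.Stm
import Pool.Agent.Y491.ID.Main

/-!
# Project FP: assembly of the two main theorems
-/

set_option autoImplicit false
set_option linter.unusedSectionVars false

open Finset
open scoped Classical

namespace Pool.Agent.Y491.FP

open Pool.Agent.TH161.LW Pool.Agent.H13R3.WB Pool.Agent.Y491.BF

theorem InD_congr {P R : Type} [PartialOrder P] [PartialOrder R] (h : InD P) (e : P ≃o R) :
    InD R := by
  cases h with
  | one _ h1 => exact InD.one R (h1.map fun f => e.symm.trans f)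
  | three _ h1 => exact InD.three R (h1.map fun f => e.symm.trans f)
  | sum P' Q' _ hP hQ h1 => exact InD.sum P' Q' R hP hQ (h1.map fun f => e.symm.trans f)

theorem thin_congr {K : ℕ} {P R : Type} [Fintype P] [PartialOrder P] [Fintype R] [PartialOrder R]
    (h : Thin K P) (e : P ≃o R) : Thin K R := by
  intro x
  refine le_trans (Finset.card_le_card_of_injOn e.symm ?_ (e.symm.injective.injOn)) (h (e.symm x))
  intro w hw
  rw [Finset.mem_coe, Finset.mem_filter] at hw ⊢
  refine ⟨Finset.mem_univ _, ?_, ?_⟩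
  · rw [e.symm.le_iff_le]; exact hw.2.1
  · rw [e.symm.le_iff_le]; exact hw.2.2

/-- isomorphic windows -/
theorem iso_of_rel {m n : ℕ} (hmn : m = n) (q : NP m) (p : NP n)
    (h : ∀ i j, i < m → j < m → (q.rel i j ↔ p.rel i j)) : Nonempty (q.El ≃o p.El) := by
  subst hmn
  exact ⟨{ toEquiv := Equiv.refl (Fin m)
           map_rel_iff' := by
            intro a b
            exact (h _ _ (Fin.isLt (n := m) a) (Fin.isLt (n := m) b)).symm }⟩

/-- the antichain -/
def anti (n : ℕ) : NP n where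
  rel i j := i = j
  refl _ _ := rfl
  le _ _ _ _ h := h.le
  trans _ _ _ _ _ _ h1 h2 := h1.trans h2

theorem card_El {n : ℕ} (p : NP n) : Fintype.card p.El = n := Fintype.card_fin n

theorem anti_incomp {n : ℕ} (a b : (anti n).El) (h : a ≤ b) : a = b := Fin.ext (n := n) h

theorem not_thin {ε B₀ : ℝ}
    (hI : ∀ (P : Type) [Fintype P] [PartialOrder P] (x : P),
      Real.exp (B₀ * Real.log (2 / ε) ^ 3 / ε ^ 4) ≤ Nat.card {y : P // ¬ x ≤ y ∧ ¬ y ≤ x} →
      1 / 2 - ε ≤ balance P)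
    (P : Type) [Fintype P] [PartialOrder P]
    (h : ¬ Thin ⌈Real.exp (B₀ * Real.log (2 / ε) ^ 3 / ε ^ 4)⌉₊ P) : 1 / 2 - ε ≤ balance P := by
  unfold Thin at h
  push Not at h
  obtain ⟨x, hx⟩ := h
  refine hI P x ?_
  have h1 : Nat.card {y : P // ¬ x ≤ y ∧ ¬ y ≤ x} =
      (univ.filter fun w : P => ¬ w ≤ x ∧ ¬ x ≤ w).card := by
    rw [Nat.card_eq_fintype_card, Fintype.card_subtype]
    congr 1
    ext w
    simp only [Finset.mem_filter, Finset.mem_univ, true_and]
    tauto
  rw [h1]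
  exact (Nat.le_ceil _).trans (by exact_mod_cast hx.le)

theorem eee_ge (t : ℝ) (ht : 0 ≤ t) : (2 : ℝ) ≤ Real.exp (Real.exp (Real.exp t)) := by
  have h1 : (1 : ℝ) ≤ Real.exp t := Real.one_le_exp ht
  have h2 : (1 : ℝ) ≤ Real.exp (Real.exp t) := Real.one_le_exp (by linarith)
  have h3 := Real.add_one_le_exp (Real.exp (Real.exp t))
  linarith

theorem T1_of (hISO : S_ISO) (hWTH : S_WTH) (hRED : S_RED) (hCMP : S_CMP) (hLIRR : S_LIRR)
    (hEXT : S_EXT) (hNOTD : S_NOTD) (hBLK : S_BLK) (hBAL : S_BAL) (hHALF : S_HALF)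
    (hNUM : S_NUM) : S_T1 := by
  obtain ⟨B₀, hB₀, hI⟩ := Pool.Agent.Y491.ID.incomparable_balance
  obtain ⟨B, hB, hN⟩ := hNUM B₀ hB₀
  refine ⟨B, hB, fun ε hε hε2 P _ _ _ hP => ?_⟩
  obtain ⟨k, hk, hkN⟩ := hN ε hε hε2
  obtain ⟨K, hK⟩ : ∃ K : ℕ, K = ⌈Real.exp (B₀ * Real.log (2 / ε) ^ 3 / ε ^ 4)⌉₊ := ⟨_, rfl⟩
  by_cases hthin : Thin K P
  · obtain ⟨p, ⟨e⟩⟩ := hEXT P
    have hp : ¬ InD p.El := fun h => hP (InD_congr h e.symm)
    have hn : 0 < Fintype.card P := Fintype.card_pos
    obtain ⟨s, t, ht, hst, hirr, hnd, hc1, hc2⟩ := hBLK _ p hn hp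
    have hthp : Thin K p.El := thin_congr hthin e
    have hthr : Thin K (p.win s t ht).El := hWTH _ p K s t ht hthp
    obtain ⟨l, hl⟩ : ∃ l, l = 2 * (k + 1) * K + 4 * K + 2 := ⟨_, rfl⟩
    obtain ⟨L, hL⟩ : ∃ L, L = l + 4 * K := ⟨_, rfl⟩
    obtain ⟨m, q, z', hm, -, hthq, hlike, -, -⟩ := hRED _ (p.win s t ht) K l L 0 0 hthr (by omega)
      (by omega) (by omega) (by omega)
    have hcmp := hCMP _ _ q (p.win s t ht) K l k hthq hthr (by omega) hlike
    have hirrq : Irr q := hLIRR _ _ q (p.win s t ht) K l hthr (by rw [hl]; omega) hlike hirr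
    have hbal : balance (p.win s t ht).El ≤ balance p.El := hBAL _ p s t ht hc1 hc2
    have hPp : balance P = balance p.El := (hISO P p.El e).2
    have hm0 : 0 < m := by
      rcases Nat.eq_zero_or_pos m with h0 | h0
      · exfalso
        obtain ⟨s', -, h1, h2, -⟩ := hlike 0 0 le_rfl (by omega) (by omega)
        have h3 := h1 rfl
        have h4 := h2 h0.symm
        omega
      · exact h0
    refine ⟨q.El, inferInstance, inferInstance, ⟨q.mk' 0 hm0⟩, ?_, ?_, ?_⟩
    · intro hD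
      have h3 : m ≤ 3 := by
        rcases hNOTD _ q hirrq hD with h | h <;> omega
      obtain ⟨s', -, h1, h2, h4⟩ := hlike 0 m (by omega) le_rfl (by
        rcases Nat.eq_zero_or_pos K with hK0 | hK0
        · exfalso
          rw [hK] at hK0
          have := Nat.ceil_eq_zero.mp hK0
          exact absurd (Real.exp_pos _) (not_lt.mpr this)
        · have : 1 * 1 ≤ (k + 1) * K := Nat.mul_le_mul (by omega) hK0
          rw [hl]
          nlinarith)
      have h5 := h1 rfl
      have h6 := h2 rfl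
      subst h5
      obtain ⟨f⟩ := iso_of_rel (by omega) q (p.win s t ht) (fun i j hi hj => by
        have := h4 i j (by omega) (by omega)
        simpa using this)
      exact hnd (InD_congr hD f)
    · rw [card_El]
      exact le_trans (by exact_mod_cast hm) (hkN K l L hK hl hL)
    · rw [hK] at hcmp
      linarith
  · have h1 : 1 / 2 - ε ≤ balance P := not_thin (hI ε hε hε2) P (by rw [← hK]; exact hthin)
    refine ⟨(anti 2).El, inferInstance, inferInstance, ⟨(anti 2).mk' 0 (by norm_num)⟩, ?_, ?_, ?_⟩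
    · intro hD
      have hirr : Irr (anti 2) := by
        intro k hk1 hk2
        refine ⟨0, 1, hk1, by omega, by norm_num, ?_⟩
        show ¬ (0 = 1)
        norm_num
      rcases hNOTD _ (anti 2) hirr hD with h | h <;> omega
    · rw [card_El]
      have h2 : (0 : ℝ) ≤ B * Real.log (2 / ε) ^ 3 / ε ^ 4 := by
        have : 0 ≤ Real.log (2 / ε) := Real.log_nonneg (by
          rw [le_div_iff₀ hε]; linarith)
        positivity
      exact_mod_cast eee_ge _ h2
    · have := (hHALF (anti 2).El).2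
      linarith

theorem T2_of (hISO : S_ISO) (hRED : S_RED) (hCMP : S_CMP) (hANT : S_ANT) (hTRA : S_TRA)
    (hEXT : S_EXT) (hHALF : S_HALF) (hNUM : S_NUM) : S_T2 := by
  obtain ⟨B₀, hB₀, hI⟩ := Pool.Agent.Y491.ID.incomparable_balance
  obtain ⟨B, hB, hN⟩ := hNUM B₀ hB₀
  refine ⟨B, hB, fun ε hε hε2 w P _ _ hw hA hA' => ?_⟩
  obtain ⟨k, hk, hkN⟩ := hN ε hε hε2
  obtain ⟨K, hK⟩ : ∃ K : ℕ, K = ⌈Real.exp (B₀ * Real.log (2 / ε) ^ 3 / ε ^ 4)⌉₊ := ⟨_, rfl⟩
  have hK1 : 1 ≤ K := by
    rcases Nat.eq_zero_or_pos K with hK0 | hK0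
    · exfalso
      rw [hK] at hK0
      have := Nat.ceil_eq_zero.mp hK0
      exact absurd (Real.exp_pos _) (not_lt.mpr this)
    · exact hK0
  by_cases hthin : Thin K P
  · obtain ⟨p, ⟨e⟩⟩ := hEXT P
    have hthp : Thin K p.El := thin_congr hthin e
    obtain ⟨l, hl⟩ : ∃ l, l = 2 * (k + 1) * K + 4 * K + 2 := ⟨_, rfl⟩
    obtain ⟨L, hL⟩ : ∃ L, L = l + 4 * K := ⟨_, rfl⟩
    have hPp : balance P = balance p.El := (hISO P p.El e).2
    obtain ⟨A, hA1, hA2⟩ := hA
    have hAp : IsAntichain (· ≤ ·) ((A.image e : Finset p.El) : Set p.El) := by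
      intro a ha b hb hab hle
      rw [Finset.mem_coe, Finset.mem_image] at ha hb
      obtain ⟨a', ha', rfl⟩ := ha
      obtain ⟨b', hb', rfl⟩ := hb
      have h1 : a' ≠ b' := fun h => hab (by rw [h])
      exact hA1 ha' hb' h1 (e.le_iff_le.mp hle)
    have hAc : (A.image e).card = w := by
      rw [Finset.card_image_of_injective _ e.injective, hA2]
    obtain ⟨z, h, hh, hzh, hin⟩ := hANT _ p K hthp hK1 (A.image e) hAp
    obtain ⟨m, q, z', hm, -, hthq, hlike, hz', hrel⟩ := hRED _ p K l L z h hthp (by omega)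
      (by omega) hh hzh
    have hcmp := hCMP _ _ q p K l k hthq hthp (by omega) hlike
    refine ⟨q.El, inferInstance, inferInstance, ?_, ?_, ?_, ?_⟩
    · obtain ⟨A2, h1, h2⟩ := hTRA _ _ q p z z' h hzh hz' hrel (A.image e) hAp hin
      exact ⟨A2, h1, by rw [h2, hAc]⟩
    · intro C hC
      obtain ⟨z2, h2, hh2, hzh2, hin2⟩ := hANT _ q K hthq hK1 C hC
      obtain ⟨s', h3, -, -, h6⟩ := hlike z2 (z2 + h2) (by omega) hzh2 (by omega)
      have h7 : z2 + h2 - z2 = h2 := by omega
      rw [h7] at h3 h6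
      obtain ⟨C2, h8, h9⟩ := hTRA _ _ p q z2 s' h2 hzh2 h3
        (fun i j hi hj => (h6 i j hi hj).symm) C hC hin2
      rw [← h9, ← Finset.card_image_of_injective C2 e.symm.injective]
      refine hA' _ ?_
      intro a ha b hb hab hle
      rw [Finset.mem_coe, Finset.mem_image] at ha hb
      obtain ⟨a', ha', rfl⟩ := ha
      obtain ⟨b', hb', rfl⟩ := hb
      have h1 : a' ≠ b' := fun h => hab (by rw [h])
      exact h8 ha' hb' h1 (e.symm.le_iff_le.mp hle)
    · rw [card_El]
      refine le_max_of_le_right ?_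
      exact le_trans (by exact_mod_cast hm) (hkN K l L hK hl hL)
    · rw [hK] at hcmp
      linarith
  · have h1 : 1 / 2 - ε ≤ balance P := not_thin (hI ε hε hε2) P (by rw [← hK]; exact hthin)
    refine ⟨(anti w).El, inferInstance, inferInstance, ⟨univ, ?_, ?_⟩, ?_, ?_, ?_⟩
    · intro a _ b _ hab hle
      exact hab (anti_incomp a b hle)
    · rw [Finset.card_univ, card_El]
    · intro A _
      have := Finset.card_le_univ A
      rwa [card_El] at this
    · rw [card_El]
      exact le_max_left _ _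
    · have := (hHALF (anti w).El).2
      linarith

end Pool.Agent.Y491.FP
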