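import Pool.Agent.Y491.FP.Stm

/-!
# Project FP, BAND, ANT and TRA (by helper592)
-/

set_option autoImplicit false

open Finset
open scoped Classical

namespace Pool.Agent.Y491.FP.BAND

open Pool.Agent.TH161.LW Pool.Agent.H13R3.WB Pool.Agent.Y491.BF Pool.Agent.Y491.FP

/-- the labels incomparable to a label -/
theorem inc_card {n : ℕ} (p : NP n) {K : ℕ} (hT : Thin K p.El) {a : ℕ} (ha : a < n) :
    ((range n).filter fun v => ¬ p.rel v a ∧ ¬ p.rel a v).card ≤ K := by
  have h1 : ((range n).filter fun v => ¬ p.rel v a ∧ ¬ p.rel a v) ⊆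
      (univ.filter fun w : p.El => ¬ w ≤ p.mk' a ha ∧ ¬ p.mk' a ha ≤ w).image
        (fun w : p.El => Fin.val (n := n) w) := by
    intro v hv
    rw [mem_filter, mem_range] at hv
    rw [mem_image]
    refine ⟨p.mk' v hv.1, ?_, rfl⟩
    rw [mem_filter]
    exact ⟨mem_univ _, hv.2⟩
  exact (card_le_card h1).trans (card_image_le.trans (hT (p.mk' a ha)))

theorem t_BAND : S_BAND := by
  intro n p K i j hT hij hj hrel
  have hi : i < n := by omega
  have h1 := inc_card p hT hj
  have h2 := inc_card p hT hi
  set A := (range n).filter fun v => p.rel v j with hA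
  set D := (range n).filter fun v => p.rel i v with hD
  have hdis : Disjoint A D := by
    rw [disjoint_left]
    intro v hv hv'
    rw [hA, mem_filter, mem_range] at hv
    rw [hD, mem_filter, mem_range] at hv'
    exact hrel (p.trans i v j hi hv.1 hj hv'.2 hv.2)
  have hAD : A.card + D.card ≤ n := by
    rw [← card_union_of_disjoint hdis]
    calc (A ∪ D).card ≤ (range n).card :=
          card_le_card (union_subset (filter_subset _ _) (filter_subset _ _))
      _ = n := card_range n
  have hA1 : range (j + 1) ⊆ A ∪ (range n).filter fun v => ¬ p.rel v j ∧ ¬ p.rel j v := by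
    intro v hv
    rw [mem_range] at hv
    rw [mem_union, hA, mem_filter, mem_filter, mem_range]
    by_cases hr : p.rel v j
    · exact Or.inl ⟨by omega, hr⟩
    · refine Or.inr ⟨by omega, hr, ?_⟩
      intro hr'
      have h3 := p.le j v hj (by omega) hr'
      have h4 : v = j := by omega
      subst h4
      exact hr hr'
  have hD1 : Ico i n ⊆ D ∪ (range n).filter fun v => ¬ p.rel v i ∧ ¬ p.rel i v := by
    intro v hv
    rw [mem_Ico] at hv
    rw [mem_union, hD, mem_filter, mem_filter, mem_range]
    by_cases hr : p.rel i v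
    · exact Or.inl ⟨hv.2, hr⟩
    · refine Or.inr ⟨hv.2, ?_, hr⟩
      intro hr'
      have h3 := p.le v i hv.2 hi hr'
      have h4 : v = i := by omega
      subst h4
      exact hr hr'
  have h3 := (card_le_card hA1).trans (card_union_le _ _)
  have h4 := (card_le_card hD1).trans (card_union_le _ _)
  rw [card_range] at h3
  rw [Nat.card_Ico] at h4
  omega

theorem t_ANT : S_ANT := by
  intro n p K hT hK A hA
  rcases A.eq_empty_or_nonempty with rfl | hne
  · exact ⟨0, 0, by omega, by omega, fun a ha => absurd ha (notMem_empty _)⟩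
  · obtain ⟨a0, ha0, hmin⟩ := exists_min_image A (fun a => Fin.val (n := n) a) hne
    have hlt : Fin.val (n := n) a0 < n := Fin.isLt (n := n) a0
    refine ⟨Fin.val (n := n) a0, min (2 * K) (n - Fin.val (n := n) a0), min_le_left _ _, ?_, ?_⟩
    · have := min_le_right (2 * K) (n - Fin.val (n := n) a0)
      omega
    · intro a ha
      have h1 : Fin.val (n := n) a0 ≤ Fin.val (n := n) a := hmin a ha
      have h2 : Fin.val (n := n) a < n := Fin.isLt (n := n) a
      refine ⟨h1, ?_⟩
      have h3 : Fin.val (n := n) a < Fin.val (n := n) a0 + 2 * K := by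
        by_cases he : a0 = a
        · rw [he]
          omega
        · have h4 : ¬ a0 ≤ a := hA ha0 ha he
          have h5 : Fin.val (n := n) a0 ≠ Fin.val (n := n) a := fun h => he (Fin.ext (n := n) h)
          exact t_BAND n p K _ _ hT (by omega) h2 h4
      rcases min_choice (2 * K) (n - Fin.val (n := n) a0) with h | h <;> rw [h] <;> omega

theorem t_TRA : S_TRA := by
  intro m n q p z z' h hzn hzm hrel A hA hwin
  have hlt : ∀ a : {a // a ∈ A}, z' + (Fin.val (n := n) a.1 - z) < m := by
    intro a
    have := hwin a.1 a.2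
    omega
  let f : {a // a ∈ A} → q.El := fun a => q.mk' (z' + (Fin.val (n := n) a.1 - z)) (hlt a)
  have hf : Function.Injective f := by
    intro a b hab
    have h1 : z' + (Fin.val (n := n) a.1 - z) = z' + (Fin.val (n := n) b.1 - z) :=
      congrArg (fun w : q.El => Fin.val (n := m) w) hab
    have h2 := hwin a.1 a.2
    have h3 := hwin b.1 b.2
    exact Subtype.ext (Fin.ext (n := n) (by omega))
  refine ⟨A.attach.image f, ?_, ?_⟩
  · intro x hx y hy hxy
    rw [mem_coe, mem_image] at hx hy
    obtain ⟨a, -, rfl⟩ := hx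
    obtain ⟨b, -, rfl⟩ := hy
    have hab : a.1 ≠ b.1 := fun h => hxy (by rw [Subtype.ext h])
    have h1 : ¬ a.1 ≤ b.1 := hA a.2 b.2 hab
    have h2 := hwin a.1 a.2
    have h3 := hwin b.1 b.2
    intro hle
    apply h1
    have hle' : q.rel (z' + (Fin.val (n := n) a.1 - z)) (z' + (Fin.val (n := n) b.1 - z)) := hle
    rw [hrel _ _ (by omega) (by omega)] at hle'
    rw [show z + (Fin.val (n := n) a.1 - z) = Fin.val (n := n) a.1 by omega,
      show z + (Fin.val (n := n) b.1 - z) = Fin.val (n := n) b.1 by omega] at hle'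
    exact hle'
  · rw [card_image_of_injective _ hf, card_attach]

end Pool.Agent.Y491.FP.BAND
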