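import Pool.Agent.Y491.FP.Stm

/-!
# Project FP: BLK (helper96)
-/

set_option autoImplicit false

open Finset
open scoped Classical

namespace Pool.Agent.Y491.FP.BLK

open Pool.Agent.TH161.LW Pool.Agent.H13R3.WB Pool.Agent.Y491.BF

theorem ind_iso {P R : Type} [PartialOrder P] [PartialOrder R] (h : InD P) (e : P ≃o R) :
    InD R := by
  cases h with
  | one _ e0 =>
    obtain ⟨e0⟩ := e0
    exact InD.one R ⟨e.symm.trans e0⟩
  | three _ e0 =>
    obtain ⟨e0⟩ := e0
    exact InD.three R ⟨e.symm.trans e0⟩
  | sum A B _ h1 h2 e0 =>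
    obtain ⟨e0⟩ := e0
    exact InD.sum A B R h1 h2 ⟨e.symm.trans e0⟩

/-- two posets with the same relation on the labels are isomorphic -/
def isoOf {n : ℕ} (q1 q2 : NP n) (hr : ∀ i j, i < n → j < n → (q1.rel i j ↔ q2.rel i j)) :
    q1.El ≃o q2.El where
  toFun a := (show Fin n from a)
  invFun a := (show Fin n from a)
  left_inv _ := rfl
  right_inv _ := rfl
  map_rel_iff' {a b} := (hr _ _ (Fin.isLt (n := n) a) (Fin.isLt (n := n) b)).symm

theorem not_ind_congr {n m : ℕ} (hnm : n = m) (q1 : NP n) (q2 : NP m)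
    (hr : ∀ i j, i < n → j < n → (q1.rel i j ↔ q2.rel i j)) (h : ¬ InD q1.El) :
    ¬ InD q2.El := by
  subst hnm
  exact fun h2 => h (ind_iso h2 (isoOf q1 q2 hr).symm)

theorem irr_congr {n m : ℕ} (hnm : n = m) (q1 : NP n) (q2 : NP m)
    (hr : ∀ i j, i < n → j < n → (q1.rel i j ↔ q2.rel i j)) (h : Irr q1) : Irr q2 := by
  subst hnm
  intro k h0 hk
  obtain ⟨i, j, h1, h2, h3, h4⟩ := h k h0 hk
  exact ⟨i, j, h1, h2, h3, fun h5 => h4 ((hr i j (by omega) h3).2 h5)⟩

/-- an ordinal sum at a cut -/
theorem sum_iso {n : ℕ} (p : NP n) (k : ℕ) (hk : k ≤ n)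
    (hcut : ∀ i j, i < k → k ≤ j → j < n → p.rel i j) :
    Nonempty (p.El ≃o ((p.win 0 k hk).El ⊕ₗ (p.win k n le_rfl).El)) := by
  let g : (p.win 0 k hk).El ⊕ₗ (p.win k n le_rfl).El → p.El := fun z =>
    match ofLex z with
    | Sum.inl a => p.mk' (Fin.val (n := k - 0) a) (by
        have := Fin.isLt (n := k - 0) a
        omega)
    | Sum.inr b => p.mk' (k + Fin.val (n := n - k) b) (by
        have := Fin.isLt (n := n - k) b
        omega)
  have hg : ∀ z1 z2, g z1 ≤ g z2 ↔ z1 ≤ z2 := by
    intro z1 z2
    rcases z1 with a | a <;> rcases z2 with b | b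
    · have h1 : toLex (Sum.inl a : (p.win 0 k hk).El ⊕ (p.win k n le_rfl).El) ≤
          toLex (Sum.inl b) ↔ a ≤ b := Sum.Lex.inl_le_inl_iff
      refine Iff.trans ?_ h1.symm
      show p.rel (Fin.val (n := k - 0) a) (Fin.val (n := k - 0) b) ↔
        p.rel (0 + Fin.val (n := k - 0) a) (0 + Fin.val (n := k - 0) b)
      rw [Nat.zero_add, Nat.zero_add]
    · have h1 : toLex (Sum.inl a : (p.win 0 k hk).El ⊕ (p.win k n le_rfl).El) ≤
          toLex (Sum.inr b) := Sum.Lex.inl_le_inr _ _
      refine ⟨fun _ => h1, fun _ => ?_⟩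
      have ha := Fin.isLt (n := k - 0) a
      have hb := Fin.isLt (n := n - k) b
      exact hcut (Fin.val (n := k - 0) a) (k + Fin.val (n := n - k) b) (by omega) (by omega)
        (by omega)
    · have h1 : ¬ toLex (Sum.inr a : (p.win 0 k hk).El ⊕ (p.win k n le_rfl).El) ≤
          toLex (Sum.inl b) := Sum.Lex.not_inr_le_inl
      refine ⟨fun h2 => ?_, fun h2 => absurd h2 h1⟩
      exfalso
      have ha := Fin.isLt (n := n - k) a
      have hb := Fin.isLt (n := k - 0) b
      have h3 := p.le (k + Fin.val (n := n - k) a) (Fin.val (n := k - 0) b) (by omega) (by omega) h2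
      omega
    · have h1 : toLex (Sum.inr a : (p.win 0 k hk).El ⊕ (p.win k n le_rfl).El) ≤
          toLex (Sum.inr b) ↔ a ≤ b := Sum.Lex.inr_le_inr_iff
      exact h1.symm
  have hs : Function.Surjective g := by
    intro a
    have ha := Fin.isLt (n := n) a
    by_cases h : Fin.val (n := n) a < k
    · refine ⟨toLex (Sum.inl ((p.win 0 k hk).mk' (Fin.val (n := n) a) (by omega))), ?_⟩
      exact Fin.ext (n := n) rfl
    · refine ⟨toLex (Sum.inr ((p.win k n le_rfl).mk' (Fin.val (n := n) a - k) (by omega))), ?_⟩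
      refine Fin.ext (n := n) ?_
      show k + (Fin.val (n := n) a - k) = Fin.val (n := n) a
      omega
  exact ⟨(RelIso.ofSurjective (OrderEmbedding.ofMapLEIff g hg) hs : _ ≃o p.El).symm⟩

theorem t_BLK : S_BLK := by
  intro n
  induction n using Nat.strong_induction_on with
  | _ n ih =>
  intro p hn hD
  by_cases hI : Irr p
  · have hr : ∀ i j, i < n → j < n → (p.rel i j ↔ (p.win 0 n le_rfl).rel i j) := by
      intro i j _ _
      show p.rel i j ↔ p.rel (0 + i) (0 + j)
      rw [Nat.zero_add, Nat.zero_add]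
    refine ⟨0, n, le_rfl, hn, irr_congr (Nat.sub_zero n).symm p _ hr hI,
      not_ind_congr (Nat.sub_zero n).symm p _ hr hD, fun i j h => absurd h (Nat.not_lt_zero i),
      fun i j _ h1 h2 => absurd h1 (by omega)⟩
  · unfold Irr at hI
    push Not at hI
    obtain ⟨k, hk0, hkn, hcut⟩ := hI
    by_cases h1 : InD (p.win 0 k hkn.le).El
    · have h2 : ¬ InD (p.win k n le_rfl).El := by
        intro h2
        exact hD (InD.sum _ _ p.El h1 h2 (sum_iso p k hkn.le hcut))
      obtain ⟨s, t, h, hst, hirr, hnd, c1, c2⟩ := ih (n - k) (by omega) (p.win k n le_rfl)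
        (by omega) h2
      have hsz : t - s = k + t - (k + s) := by omega
      have hr : ∀ i j, i < t - s → j < t - s →
          (((p.win k n le_rfl).win s t h).rel i j ↔
            (p.win (k + s) (k + t) (by omega)).rel i j) := by
        intro i j _ _
        show p.rel (k + (s + i)) (k + (s + j)) ↔ p.rel (k + s + i) (k + s + j)
        rw [Nat.add_assoc, Nat.add_assoc]
      refine ⟨k + s, k + t, by omega, by omega, irr_congr hsz _ _ hr hirr,
        not_ind_congr hsz _ _ hr hnd, ?_, ?_⟩
      · intro i j hi hj hjn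
        by_cases hik : i < k
        · exact hcut i j hik (by omega) hjn
        · have := c1 (i - k) (j - k) (by omega) (by omega) (by omega)
          have h3 : p.rel (k + (i - k)) (k + (j - k)) := this
          rwa [show k + (i - k) = i by omega, show k + (j - k) = j by omega] at h3
      · intro i j hi hj hjn
        by_cases hik : i < k
        · exact hcut i j hik (by omega) hjn
        · have := c2 (i - k) (j - k) (by omega) (by omega) (by omega)
          have h3 : p.rel (k + (i - k)) (k + (j - k)) := this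
          rwa [show k + (i - k) = i by omega, show k + (j - k) = j by omega] at h3
    · obtain ⟨s, t, h, hst, hirr, hnd, c1, c2⟩ := ih (k - 0) (by omega) (p.win 0 k hkn.le)
        (by omega) h1
      have hr : ∀ i j, i < t - s → j < t - s →
          (((p.win 0 k hkn.le).win s t h).rel i j ↔ (p.win s t (by omega)).rel i j) := by
        intro i j _ _
        show p.rel (0 + (s + i)) (0 + (s + j)) ↔ p.rel (s + i) (s + j)
        rw [Nat.zero_add, Nat.zero_add]
      refine ⟨s, t, by omega, hst, irr_congr rfl _ _ hr hirr, not_ind_congr rfl _ _ hr hnd,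
        ?_, ?_⟩
      · intro i j hi hj hjn
        by_cases hjk : j < k
        · have := c1 i j hi hj (by omega)
          have h3 : p.rel (0 + i) (0 + j) := this
          rwa [Nat.zero_add, Nat.zero_add] at h3
        · exact hcut i j (by omega) (by omega) hjn
      · intro i j hi hj hjn
        by_cases hjk : j < k
        · have := c2 i j hi hj (by omega)
          have h3 : p.rel (0 + i) (0 + j) := this
          rwa [Nat.zero_add, Nat.zero_add] at h3
        · exact hcut i j (by omega) (by omega) hjn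

end Pool.Agent.Y491.FP.BLK
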