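import Pool.Agent.Y491.FP.Stm

/-!
Project FP (helper491), job DOE (helper38): Doeblin contraction for linear extensions.
-/

set_option autoImplicit false

open Finset
open scoped Classical

namespace Pool.Agent.Y491.FP.DOE

open Pool.Agent.TH161.LW Pool.Agent.H13R3.WB Pool.Agent.Y491.BF Pool.Agent.Y491.FP

/-! ### Numbers of linear extensions -/

lemma eN_pos (P : Type) [Fintype P] [PartialOrder P] : 0 < eN P := by
  unfold eN
  rw [Nat.card_pos_iff]
  refine ⟨?_, inferInstance⟩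
  let _ : Fintype (LinearExtension P) := inferInstanceAs (Fintype P)
  let e : Fin (Fintype.card P) ≃o LinearExtension P :=
    monoEquivOfFin (LinearExtension P) rfl
  let σ : P ≃ Fin (Fintype.card P) := e.symm.toEquiv
  refine ⟨σ, ?_⟩
  have hm : Monotone (toLinearExtension : P → LinearExtension P) := toLinearExtension.monotone
  intro a b hab
  refine lt_of_le_of_ne ?_ (fun h => hab.ne (σ.injective h))
  exact e.symm.monotone (hm hab.le)

lemma eN_le (P : Type) [Fintype P] [PartialOrder P] : eN P ≤ (Fintype.card P).factorial := by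
  rw [eN_eq]
  refine (Finset.card_filter_le _ _).trans ?_
  rw [Finset.card_univ, Fintype.card_equiv (Fintype.equivFin P)]

lemma eP_le (P : Type) [Fintype P] [PartialOrder P] (x y : P) : eP P x y ≤ eN P := by
  rw [eP_eq, eN_eq]
  refine Finset.card_le_card fun σ hσ => ?_
  rw [Finset.mem_filter] at hσ ⊢
  exact ⟨hσ.1, hσ.2.1⟩

lemma eN_congr {P Q : Type} [Fintype P] [PartialOrder P] [Fintype Q] [PartialOrder Q]
    (e : P ≃o Q) : eN P = eN Q := by
  unfold eN
  have h : Fintype.card P = Fintype.card Q := Fintype.card_congr e.toEquiv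
  refine Nat.card_congr (Equiv.subtypeEquiv (Equiv.equivCongr e.toEquiv (finCongr h)) ?_)
  intro σ
  constructor
  · intro hσ a b hab
    exact hσ (e.symm.strictMono hab)
  · intro hσ a b hab
    have h1 := hσ (e.strictMono hab)
    have h2 : ∀ z, (Equiv.equivCongr e.toEquiv (finCongr h) σ) (e z) = finCongr h (σ z) := by
      intro z
      simp [Equiv.equivCongr]
    rw [h2, h2] at h1
    exact h1

lemma eP_congr {P Q : Type} [Fintype P] [PartialOrder P] [Fintype Q] [PartialOrder Q]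
    (e : P ≃o Q) (x y : P) : eP P x y = eP Q (e x) (e y) := by
  unfold eP
  have h : Fintype.card P = Fintype.card Q := Fintype.card_congr e.toEquiv
  refine Nat.card_congr (Equiv.subtypeEquiv (Equiv.equivCongr e.toEquiv (finCongr h)) ?_)
  intro σ
  have h2 : ∀ z, (Equiv.equivCongr e.toEquiv (finCongr h) σ) (e z) = finCongr h (σ z) := by
    intro z
    simp [Equiv.equivCongr]
  rw [h2, h2]
  refine and_congr ?_ Iff.rfl
  constructor
  · intro hσ a b hab
    exact hσ (e.symm.strictMono hab)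
  · intro hσ a b hab
    have h1 := hσ (e.strictMono hab)
    rw [h2, h2] at h1
    exact h1

lemma prob_eq (P : Type) [Fintype P] [PartialOrder P] (x y : P) :
    prob P x y = (eP P x y : ℝ) / eN P := by
  unfold prob eP eN
  have h : ∀ f : P ≃ Fin (Fintype.card P), Monotone ⇑f ↔ StrictMono ⇑f := fun f =>
    ⟨fun h => h.strictMono_of_injective f.injective, fun h => h.monotone⟩
  simp only [h]

section

variable {α : Type} [Fintype α] [PartialOrder α]

omit [Fintype α] in
lemma eS_pos (S : Finset α) : 0 < eS S := eN_pos _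

omit [Fintype α] in
lemma eS_le (S : Finset α) : eS S ≤ S.card.factorial := by
  have h := eN_le {a : α // a ∈ S}
  rw [Fintype.card_coe] at h
  exact h

lemma eF_le (S : Finset α) (x y : α) : eF S x y ≤ eS S := by
  unfold eF
  split_ifs with h
  · exact eP_le _ _ _
  · exact Nat.zero_le _

/-- the subtype of all elements -/
def topIso : {a : α // a ∈ (univ : Finset α)} ≃o α where
  toFun a := a.1
  invFun a := ⟨a, mem_univ a⟩
  left_inv _ := rfl
  right_inv _ := rfl
  map_rel_iff' := Iff.rfl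

lemma prob_univ (x y : α) : prob α x y = (eF (univ : Finset α) x y : ℝ) / eS (univ : Finset α) := by
  rw [prob_eq]
  have h1 : eS (univ : Finset α) = eN α := eN_congr topIso
  have h2 : eF (univ : Finset α) x y = eP α x y := by
    unfold eF
    rw [dif_pos ⟨mem_univ x, mem_univ y⟩]
    exact eP_congr (P := {a : α // a ∈ (univ : Finset α)}) (Q := α) topIso ⟨x, mem_univ x⟩
      ⟨y, mem_univ y⟩
  rw [h1, h2]

/-! ### Lower sets of a given size -/

lemma sub_of_thin {K : ℕ} (hK : Thin K α) {I A : Finset α} (hI : Low I) (hA : Low A)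
    (hc : I.card + K ≤ A.card) : I ⊆ A := by
  intro w hw
  by_contra hwA
  have h1 : A ⊆ (univ.filter fun v => v < w) ∪ (univ.filter fun v : α => ¬ v ≤ w ∧ ¬ w ≤ v) := by
    intro v hv
    have hwv : ¬ w ≤ v := fun h => hwA (hA w v h hv)
    by_cases hvw : v ≤ w
    · exact mem_union_left _ (mem_filter.2 ⟨mem_univ _, lt_of_le_not_ge hvw hwv⟩)
    · exact mem_union_right _ (mem_filter.2 ⟨mem_univ _, hvw, hwv⟩)
  have h2 : insert w (univ.filter fun v => v < w) ⊆ I := by
    intro v hv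
    rcases mem_insert.1 hv with rfl | hv
    · exact hw
    · exact hI v w (mem_filter.1 hv).2.le hw
  have h3 := card_le_card h1
  have h4 := card_union_le (univ.filter fun v => v < w)
    (univ.filter fun v : α => ¬ v ≤ w ∧ ¬ w ≤ v)
  have h5 := card_le_card h2
  rw [card_insert_of_notMem (by simp)] at h5
  have h6 := hK w
  omega

variable (α) in
/-- the lower sets with `r` elements -/
noncomputable def LS (r : ℕ) : Finset (Finset α) :=
  univ.filter fun A : Finset α => Low A ∧ A.card = r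

lemma mem_LS {r : ℕ} {A : Finset α} : A ∈ LS α r ↔ Low A ∧ A.card = r := by
  unfold LS
  simp

lemma filt_eq {I : Finset α} {r : ℕ} (h : ∀ A : Finset α, Low A → A.card = r → I ⊆ A) :
    (univ.filter fun A : Finset α => Low A ∧ A.card = r ∧ I ⊆ A) = LS α r := by
  ext A
  rw [mem_LS, mem_filter]
  constructor
  · rintro ⟨_, h1, h2, _⟩
    exact ⟨h1, h2⟩
  · rintro ⟨h1, h2⟩
    exact ⟨mem_univ _, h1, h2, h A h1 h2⟩

/-- the probability after the removal of `I` -/
noncomputable def fr (x y : α) (I : Finset α) : ℝ := (eF Iᶜ x y : ℝ) / eS Iᶜ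

lemma fr_nonneg (x y : α) (I : Finset α) : 0 ≤ fr x y I := by
  unfold fr
  positivity

lemma fr_le_one (x y : α) (I : Finset α) : fr x y I ≤ 1 := by
  unfold fr
  have h1 : (0 : ℝ) < eS Iᶜ := by exact_mod_cast eS_pos Iᶜ
  rw [div_le_one h1]
  exact_mod_cast eF_le Iᶜ x y

/-- the weights -/
noncomputable def wt (I A : Finset α) : ℝ := (eS (A \ I) : ℝ) * eS Aᶜ / eS Iᶜ

lemma wt_nonneg (I A : Finset α) : 0 ≤ wt I A := by
  unfold wt
  positivity

lemma fr_eq (h : S_SPL) {I : Finset α} {r : ℕ} {x y : α} (hI : Low I)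
    (hr : I.card ≤ r) (hn : r ≤ Fintype.card α)
    (hs : ∀ A : Finset α, Low A → A.card = r → I ⊆ A)
    (hx : ∀ A : Finset α, Low A → A.card = r → x ∉ A ∧ y ∉ A) :
    ∑ A ∈ LS α r, wt I A = 1 ∧ fr x y I = ∑ A ∈ LS α r, wt I A * fr x y A ∧
      (eS Iᶜ : ℝ) = ∑ A ∈ LS α r, (eS (A \ I) : ℝ) * eS Aᶜ := by
  obtain ⟨h1, h2⟩ := h α I r hI hr hn
  have h3 := h2 x y hx
  rw [filt_eq hs] at h1 h3
  have hpos : (0 : ℝ) < eS Iᶜ := by exact_mod_cast eS_pos Iᶜ
  have h1' : (eS Iᶜ : ℝ) = ∑ A ∈ LS α r, (eS (A \ I) : ℝ) * eS Aᶜ := by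
    exact_mod_cast h1
  have h3' : (eF Iᶜ x y : ℝ) = ∑ A ∈ LS α r, (eS (A \ I) : ℝ) * eF Aᶜ x y := by
    exact_mod_cast h3
  refine ⟨?_, ?_, h1'⟩
  · unfold wt
    rw [← Finset.sum_div, ← h1', div_self hpos.ne']
  · unfold fr wt
    rw [h3', Finset.sum_div]
    refine Finset.sum_congr rfl fun A _ => ?_
    have hA : (0 : ℝ) < eS Aᶜ := by exact_mod_cast eS_pos Aᶜ
    field_simp

end

/-! ### Contraction -/

lemma sum_bd {β : Type} (S : Finset β) (u ν f : β → ℝ) (c lo hi : ℝ)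
    (hu : ∀ A ∈ S, c * ν A ≤ u A) (su : ∑ A ∈ S, u A = 1) (sν : ∑ A ∈ S, ν A = 1)
    (hlo : ∀ A ∈ S, lo ≤ f A) (hhi : ∀ A ∈ S, f A ≤ hi) :
    (1 - c) * lo ≤ ∑ A ∈ S, u A * f A - c * ∑ A ∈ S, ν A * f A ∧
      ∑ A ∈ S, u A * f A - c * ∑ A ∈ S, ν A * f A ≤ (1 - c) * hi := by
  have e1 : ∑ A ∈ S, u A * f A - c * ∑ A ∈ S, ν A * f A = ∑ A ∈ S, (u A - c * ν A) * f A := by
    rw [Finset.mul_sum, ← Finset.sum_sub_distrib]
    exact Finset.sum_congr rfl fun A _ => by ring
  have e2 : ∀ t : ℝ, (1 - c) * t = ∑ A ∈ S, (u A - c * ν A) * t := by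
    intro t
    rw [← Finset.sum_mul, Finset.sum_sub_distrib, ← Finset.mul_sum, su, sν, mul_one]
  rw [e1, e2 lo, e2 hi]
  exact ⟨Finset.sum_le_sum fun A hA => mul_le_mul_of_nonneg_left (hlo A hA)
      (sub_nonneg.2 (hu A hA)),
    Finset.sum_le_sum fun A hA => mul_le_mul_of_nonneg_left (hhi A hA) (sub_nonneg.2 (hu A hA))⟩

lemma contr {β : Type} (S : Finset β) (u u' ν f : β → ℝ) (c D : ℝ) (hc : c ≤ 1)
    (hu : ∀ A ∈ S, c * ν A ≤ u A) (hu' : ∀ A ∈ S, c * ν A ≤ u' A)
    (su : ∑ A ∈ S, u A = 1) (su' : ∑ A ∈ S, u' A = 1) (sν : ∑ A ∈ S, ν A = 1)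
    (hD : ∀ A ∈ S, ∀ B ∈ S, |f A - f B| ≤ D) :
    |∑ A ∈ S, u A * f A - ∑ A ∈ S, u' A * f A| ≤ (1 - c) * D := by
  have hne : S.Nonempty := by
    rw [Finset.nonempty_iff_ne_empty]
    rintro rfl
    simp at su
  obtain ⟨A0, hA0, h0⟩ := Finset.exists_min_image S f hne
  obtain ⟨A1, hA1, h1⟩ := Finset.exists_max_image S f hne
  obtain ⟨a1, a2⟩ := sum_bd S u ν f c (f A0) (f A1) hu su sν h0 h1
  obtain ⟨b1, b2⟩ := sum_bd S u' ν f c (f A0) (f A1) hu' su' sν h0 h1
  have h2 : f A1 - f A0 ≤ D := (le_abs_self _).trans (hD A1 hA1 A0 hA0)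
  have h3 := mul_le_mul_of_nonneg_left h2 (sub_nonneg.2 hc)
  rw [abs_le]
  constructor <;> nlinarith

lemma conv {β : Type} (S : Finset β) (u f : β → ℝ) (D t : ℝ)
    (hu : ∀ A ∈ S, 0 ≤ u A) (su : ∑ A ∈ S, u A = 1) (hD : ∀ A ∈ S, |f A - t| ≤ D) :
    |∑ A ∈ S, u A * f A - t| ≤ D := by
  have e1 : ∑ A ∈ S, u A * f A - t = ∑ A ∈ S, u A * (f A - t) := by
    simp only [mul_sub]
    rw [Finset.sum_sub_distrib, ← Finset.sum_mul, su, one_mul]
  rw [e1]
  refine (Finset.abs_sum_le_sum_abs _ _).trans ?_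
  calc ∑ A ∈ S, |u A * (f A - t)| ≤ ∑ A ∈ S, u A * D := by
        refine Finset.sum_le_sum fun A hA => ?_
        rw [abs_mul, abs_of_nonneg (hu A hA)]
        exact mul_le_mul_of_nonneg_left (hD A hA) (hu A hA)
    _ = D := by rw [← Finset.sum_mul, su, one_mul]

/-- the weights are bounded below -/
lemma wt_ge {α : Type} [Fintype α] [PartialOrder α] {I A : Finset α} {K r : ℕ} (hA : A ∈ LS α r)
    (hcard : ∀ B ∈ LS α r, (B \ I).card = K)
    (hsum : (eS Iᶜ : ℝ) = ∑ B ∈ LS α r, (eS (B \ I) : ℝ) * eS Bᶜ) :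
    1 / (K.factorial : ℝ) * ((eS Aᶜ : ℝ) / ∑ B ∈ LS α r, (eS Bᶜ : ℝ)) ≤ wt I A := by
  have hZ : (0 : ℝ) < ∑ B ∈ LS α r, (eS Bᶜ : ℝ) := by
    refine Finset.sum_pos (fun B _ => ?_) ⟨A, hA⟩
    exact_mod_cast eS_pos Bᶜ
  have hK : (0 : ℝ) < (K.factorial : ℝ) := by exact_mod_cast K.factorial_pos
  have hI : (0 : ℝ) < eS Iᶜ := by exact_mod_cast eS_pos Iᶜ
  have h1 : (eS Iᶜ : ℝ) ≤ (K.factorial : ℝ) * ∑ B ∈ LS α r, (eS Bᶜ : ℝ) := by
    rw [hsum, Finset.mul_sum]
    refine Finset.sum_le_sum fun B hB => mul_le_mul_of_nonneg_right ?_ (by positivity)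
    have := eS_le (B \ I)
    rw [hcard B hB] at this
    exact_mod_cast this
  have h2 : (1 : ℝ) ≤ eS (A \ I) := by exact_mod_cast eS_pos (A \ I)
  have hAc : (0 : ℝ) < eS Aᶜ := by exact_mod_cast eS_pos Aᶜ
  unfold wt
  rw [div_mul_div_comm, one_mul]
  exact div_le_div₀ (by positivity) (by nlinarith) hI h1

theorem t_DOE (h : S_SPL) : S_DOE := by
  intro α _ _ K m s x y I hK hI hIs hx
  have hn : s + m * K < Fintype.card α := by
    by_contra hcon
    have h1 := hx univ (fun a b _ _ => mem_univ a) (by rw [Finset.card_univ]; omega)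
    exact h1.1 (mem_univ x)
  set c : ℝ := 1 / (K.factorial : ℝ) with hc
  have hKf : (1 : ℝ) ≤ (K.factorial : ℝ) := by exact_mod_cast K.factorial_pos
  have hc1 : c ≤ 1 := by rw [hc, div_le_one (by positivity)]; exact hKf
  have claim : ∀ j : ℕ, j ≤ m → ∀ I I' : Finset α, Low I → Low I' → I.card = s + (m - j) * K →
      I'.card = s + (m - j) * K → |fr x y I - fr x y I'| ≤ (1 - c) ^ j := by
    intro j
    induction j with
    | zero =>
      intro _ I I' _ _ _ _
      rw [pow_zero, abs_le]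
      have h1 := fr_nonneg x y I
      have h2 := fr_nonneg x y I'
      have h3 := fr_le_one x y I
      have h4 := fr_le_one x y I'
      constructor <;> linarith
    | succ j ih =>
      intro hj I I' hI hI' hc1' hc2'
      obtain ⟨r, hr⟩ : ∃ r, r = s + (m - j) * K := ⟨_, rfl⟩
      have hmj : m - j = (m - (j + 1)) + 1 := by omega
      have hr' : r = s + (m - (j + 1)) * K + K := by rw [hr, hmj]; ring
      have hrm : r ≤ s + m * K := by
        rw [hr]
        exact Nat.add_le_add_left (Nat.mul_le_mul_right _ (Nat.sub_le _ _)) _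
      have hrn : r ≤ Fintype.card α := by omega
      have hxr : ∀ A : Finset α, Low A → A.card = r → x ∉ A ∧ y ∉ A := fun A hA hAr =>
        hx A hA (by omega)
      have hsub : ∀ J : Finset α, Low J → J.card = s + (m - (j + 1)) * K →
          ∀ A : Finset α, Low A → A.card = r → J ⊆ A := fun J hJ hJc A hA hAr =>
        sub_of_thin hK hJ hA (by omega)
      have hcd : ∀ J : Finset α, Low J → J.card = s + (m - (j + 1)) * K →
          ∀ B ∈ LS α r, (B \ J).card = K := by
        intro J hJ hJc B hB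
        rw [mem_LS] at hB
        have := Finset.card_sdiff_of_subset (hsub J hJ hJc B hB.1 hB.2)
        omega
      obtain ⟨a1, a2, a3⟩ := fr_eq h (x := x) (y := y) hI (by omega) hrn (hsub I hI hc1') hxr
      obtain ⟨b1, b2, b3⟩ := fr_eq h (x := x) (y := y) hI' (by omega) hrn (hsub I' hI' hc2') hxr
      have hne : (LS α r).Nonempty := by
        rw [Finset.nonempty_iff_ne_empty]
        intro he
        rw [he] at a1
        simp at a1
      have hZ : (0 : ℝ) < ∑ B ∈ LS α r, (eS Bᶜ : ℝ) := by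
        refine Finset.sum_pos (fun B _ => ?_) hne
        exact_mod_cast eS_pos Bᶜ
      rw [a2, b2, pow_succ, mul_comm ((1 - c) ^ j)]
      refine contr (LS α r) (wt I) (wt I')
        (fun A => (eS Aᶜ : ℝ) / ∑ B ∈ LS α r, (eS Bᶜ : ℝ)) (fr x y) c ((1 - c) ^ j) hc1
        (fun A hA => wt_ge hA (hcd I hI hc1') a3) (fun A hA => wt_ge hA (hcd I' hI' hc2') b3)
        a1 b1 ?_ ?_
      · rw [← Finset.sum_div, div_self hZ.ne']
      · intro A hA B hB
        rw [mem_LS] at hA hB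
        exact ih (by omega) A B hA.1 hB.1 (by rw [hA.2, hr]) (by rw [hB.2, hr])
  -- the whole poset
  have hsx : ∀ A : Finset α, Low A → A.card = s → x ∉ A ∧ y ∉ A := fun A hA hAs =>
    hx A hA (by rw [hAs]; exact Nat.le_add_right _ _)
  obtain ⟨a1, a2, -⟩ := fr_eq h (I := (∅ : Finset α)) (r := s) (x := x) (y := y)
    (fun a b _ hb => absurd hb (Finset.notMem_empty _)) (by simp) (by omega)
    (fun A _ _ => Finset.empty_subset A) hsx
  have h0 : prob α x y = fr x y ∅ := by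
    unfold fr
    rw [Finset.compl_empty]
    exact prob_univ x y
  have h1 : |prob α x y - fr x y I| ≤ (1 - c) ^ m := by
    rw [h0, a2]
    refine conv (LS α s) (wt ∅) (fr x y) _ _ (fun A _ => wt_nonneg _ _) a1 fun A hA => ?_
    rw [mem_LS] at hA
    exact claim m le_rfl A I hA.1 hI (by rw [hA.2]; simp) (by rw [hIs]; simp)
  exact h1

end Pool.Agent.Y491.FP.DOE
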