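import Pool.Agent.Y491.FP.Stm

/-! Project FP, step HIGH: removing a final window, by duality. -/

set_option autoImplicit false

open Finset
open scoped Classical

namespace Pool.Agent.Y491.FP.HIGH

open Pool.Agent.TH161.LW Pool.Agent.H13R3.WB Pool.Agent.Y491.BF Pool.Agent.Y491.FP

/-- duality for linear extensions -/
lemma dual_prob (P : Type) [Fintype P] [PartialOrder P] (x y : P) :
    prob P x y = prob Pᵒᵈ (OrderDual.toDual y) (OrderDual.toDual x) := by
  have hc : Fintype.card Pᵒᵈ = Fintype.card P := rfl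
  let E : (P ≃ Fin (Fintype.card P)) ≃ (Pᵒᵈ ≃ Fin (Fintype.card Pᵒᵈ)) :=
    Equiv.equivCongr OrderDual.toDual Fin.revPerm
  have hE : ∀ (f : P ≃ Fin (Fintype.card P)) (a : P),
      E f (OrderDual.toDual a) = Fin.rev (f a) := fun f a => rfl
  have hm : ∀ f : P ≃ Fin (Fintype.card P), Monotone f ↔ Monotone (E f) := by
    intro f
    constructor
    · intro h a b hab
      exact Fin.rev_le_rev.2 (h (show OrderDual.ofDual b ≤ OrderDual.ofDual a from hab))
    · intro h a b hab
      have h1 : E f (OrderDual.toDual b) ≤ E f (OrderDual.toDual a) :=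
        h (show OrderDual.toDual b ≤ OrderDual.toDual a from hab)
      rw [hE, hE] at h1
      exact Fin.rev_le_rev.1 h1
  have hx : ∀ f : P ≃ Fin (Fintype.card P), f x < f y ↔
      E f (OrderDual.toDual y) < E f (OrderDual.toDual x) := by
    intro f
    rw [hE, hE]
    exact Fin.rev_lt_rev.symm
  unfold prob
  congr 2
  · exact Nat.card_congr (Equiv.subtypeEquiv E fun f => and_congr (hm f) (hx f))
  · exact Nat.card_congr (Equiv.subtypeEquiv E hm)

/-- the dual poset -/
def dual {n : ℕ} (p : NP n) : NP n where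
  rel i j := p.rel (n - 1 - j) (n - 1 - i)
  refl i hi := p.refl _ (by omega)
  le i j hi hj hr := by
    have := p.le _ _ (by omega) (by omega) hr
    omega
  trans i j k hi hj hk h1 h2 := p.trans _ _ _ (by omega) (by omega) (by omega) h2 h1

lemma rev_rev {n i : ℕ} (h : i < n) : n - 1 - (n - (i + 1)) = i := by omega

/-- the isomorphism of the duals -/
def dIso {n : ℕ} (p : NP n) : (p.El)ᵒᵈ ≃o (dual p).El where
  toFun a := (Fin.rev (OrderDual.ofDual a : Fin n) : Fin n)
  invFun a := OrderDual.toDual ((Fin.rev (a : Fin n) : Fin n) : p.El)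
  left_inv a := Fin.rev_rev (n := n) _
  right_inv a := Fin.rev_rev (n := n) _
  map_rel_iff' := by
    intro a b
    change p.rel (n - 1 - (Fin.val (Fin.rev (n := n) (OrderDual.ofDual b))))
      (n - 1 - (Fin.val (Fin.rev (n := n) (OrderDual.ofDual a)))) ↔
      p.rel (Fin.val (n := n) (OrderDual.ofDual b)) (Fin.val (n := n) (OrderDual.ofDual a))
    rw [Fin.val_rev, Fin.val_rev, rev_rev (Fin.isLt _), rev_rev (Fin.isLt _)]

lemma pp_dual (h2 : S_ISO) {n : ℕ} (p : NP n) {x y : ℕ} (hx : x < n) (hy : y < n) :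
    pp p x y = pp (dual p) (n - 1 - y) (n - 1 - x) := by
  unfold pp
  rw [dif_pos ⟨hx, hy⟩, dif_pos ⟨by omega, by omega⟩, dual_prob, (h2 _ _ (dIso p)).1]
  have e : ∀ (i : ℕ) (hi : i < n) (h' : n - 1 - i < n),
      dIso p (OrderDual.toDual (p.mk' i hi)) = (dual p).mk' (n - 1 - i) h' := by
    intro i hi h'
    refine Fin.ext (n := n) ?_
    change n - (i + 1) = n - 1 - i
    omega
  rw [e y hy (by omega), e x hx (by omega)]

lemma pp_congr (h2 : S_ISO) {a b : ℕ} (hab : a = b) (q1 : NP a) (q2 : NP b)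
    (h : ∀ i j, i < a → j < a → (q1.rel i j ↔ q2.rel i j)) (x y : ℕ) : pp q1 x y = pp q2 x y := by
  subst hab
  let e : q1.El ≃o q2.El :=
    { toFun := fun i => (i : Fin a)
      invFun := fun i => (i : Fin a)
      left_inv := fun _ => rfl
      right_inv := fun _ => rfl
      map_rel_iff' := by
        intro i j
        exact (h _ _ (Fin.isLt (n := a) i) (Fin.isLt (n := a) j)).symm }
  unfold pp
  by_cases hxy : x < a ∧ y < a
  · rw [dif_pos hxy, dif_pos hxy]
    exact (h2 _ _ e).1 _ _
  · rw [dif_neg hxy, dif_neg hxy]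

lemma thin_dual {n : ℕ} (p : NP n) {K : ℕ} (h : Thin K p.El) : Thin K (dual p).El := by
  intro x
  refine le_trans ?_ (h (OrderDual.ofDual ((dIso p).symm x)))
  refine Finset.card_le_card_of_injOn (fun w => OrderDual.ofDual ((dIso p).symm w)) ?_ ?_
  · intro w hw
    have hw' := (Finset.mem_filter.1 hw).2
    refine Finset.mem_filter.2 ⟨Finset.mem_univ _, fun h1 => hw'.2 ?_, fun h1 => hw'.1 ?_⟩
    · exact (dIso p).symm.le_iff_le.1 (show (dIso p).symm x ≤ (dIso p).symm w from h1)
    · exact (dIso p).symm.le_iff_le.1 (show (dIso p).symm w ≤ (dIso p).symm x from h1)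
  · intro a _ b _ hab
    exact (dIso p).symm.injective (OrderDual.ofDual.injective hab)

/-- (HIGH) removing a final window -/
theorem t_HIGH (h : S_LOW) (h2 : S_ISO) : S_HIGH := by
  intro n p K m t x y ht hK hx hy
  obtain ⟨c, hc⟩ : ∃ c, c = (m + 1) * K := ⟨_, rfl⟩
  rw [← hc] at hx hy
  have h3 := h n (dual p) K m (n - t) (n - 1 - y) (n - 1 - x) (thin_dual p hK)
    (by rw [← hc]; omega) (by rw [← hc]; omega) (by omega) (by omega)
  rw [← pp_dual h2 p (by omega : x < n) (by omega : y < n)] at h3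
  have h4 : pp (p.win 0 t ht) x y =
      pp ((dual p).win (n - t) n le_rfl) (n - 1 - y - (n - t)) (n - 1 - x - (n - t)) := by
    rw [pp_dual h2 (p.win 0 t ht) (by omega : x < t - 0) (by omega : y < t - 0)]
    have e1 : t - 0 - 1 - y = n - 1 - y - (n - t) := by omega
    have e2 : t - 0 - 1 - x = n - 1 - x - (n - t) := by omega
    rw [e1, e2]
    refine pp_congr h2 (by omega) _ _ ?_ _ _
    intro i j hi hj
    change p.rel (0 + (t - 0 - 1 - j)) (0 + (t - 0 - 1 - i)) ↔
      p.rel (n - 1 - (n - t + j)) (n - 1 - (n - t + i))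
    have e3 : 0 + (t - 0 - 1 - j) = n - 1 - (n - t + j) := by omega
    have e4 : 0 + (t - 0 - 1 - i) = n - 1 - (n - t + i) := by omega
    rw [e3, e4]
  rw [h4]
  exact h3

end Pool.Agent.Y491.FP.HIGH
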