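import Pool.Agent.Y491.FP.Stm

/-!
# Project FP, ISO and HALF (by helper592)
-/

set_option autoImplicit false

open Finset
open scoped Classical

namespace Pool.Agent.Y491.FP.ISO

open Pool.Agent.TH161.LW Pool.Agent.H13R3.WB Pool.Agent.Y491.BF Pool.Agent.Y491.FP

theorem t_ISO : S_ISO := by
  intro P Q _ _ _ _ e
  have hc : Fintype.card P = Fintype.card Q := Fintype.card_congr e.toEquiv
  let E : (P ≃ Fin (Fintype.card P)) ≃ (Q ≃ Fin (Fintype.card Q)) :=
    Equiv.equivCongr e.toEquiv (finCongr hc)
  have hE : ∀ (f : P ≃ Fin (Fintype.card P)) (q : Q), ((E f q : Fin _) : ℕ) = (f (e.symm q) : ℕ) :=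
    fun f q => rfl
  have hE' : ∀ (f : P ≃ Fin (Fintype.card P)) (x : P), ((E f (e x) : Fin _) : ℕ) = (f x : ℕ) := by
    intro f x
    rw [hE, OrderIso.symm_apply_apply]
  have hm : ∀ f : P ≃ Fin (Fintype.card P), Monotone f ↔ Monotone (E f) := by
    intro f
    constructor
    · intro h a b hab
      rw [Fin.le_def, hE, hE, ← Fin.le_def]
      exact h (e.symm.monotone hab)
    · intro h a b hab
      rw [Fin.le_def, ← hE', ← hE', ← Fin.le_def]
      exact h (e.monotone hab)
  have hp : ∀ x y, prob P x y = prob Q (e x) (e y) := by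
    intro x y
    unfold prob
    congr 2
    · refine Nat.card_congr (E.subtypeEquiv fun f => ?_)
      rw [← hm f]
      refine and_congr_right fun _ => ?_
      rw [Fin.lt_def, Fin.lt_def, hE', hE']
    · exact Nat.card_congr (E.subtypeEquiv hm)
  refine ⟨hp, ?_⟩
  unfold balance
  refine Equiv.iSup_congr (Equiv.prodCongr e.toEquiv e.toEquiv) ?_
  rintro ⟨x, y⟩
  show min (prob Q (e x) (e y)) (prob Q (e y) (e x)) = min (prob P x y) (prob P y x)
  rw [hp, hp]

theorem prob_nonneg (P : Type) [Fintype P] [PartialOrder P] (x y : P) : 0 ≤ prob P x y := by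
  unfold prob
  positivity

theorem prob_add (P : Type) [Fintype P] [PartialOrder P] (x y : P) :
    prob P x y + prob P y x ≤ 1 := by
  unfold prob
  rw [← add_div]
  refine div_le_one_of_le₀ ?_ (by positivity)
  rw [Nat.card_eq_fintype_card, Nat.card_eq_fintype_card, Nat.card_eq_fintype_card,
    Fintype.card_subtype, Fintype.card_subtype, Fintype.card_subtype]
  have hd : Disjoint (univ.filter fun f : P ≃ Fin (Fintype.card P) => Monotone f ∧ f x < f y)
      (univ.filter fun f : P ≃ Fin (Fintype.card P) => Monotone f ∧ f y < f x) := by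
    rw [disjoint_left]
    intro f h1 h2
    rw [mem_filter] at h1 h2
    exact absurd h1.2.2 (not_lt.2 h2.2.2.le)
  have hsub : (univ.filter fun f : P ≃ Fin (Fintype.card P) => Monotone f ∧ f x < f y) ∪
      (univ.filter fun f : P ≃ Fin (Fintype.card P) => Monotone f ∧ f y < f x) ⊆
      univ.filter fun f : P ≃ Fin (Fintype.card P) => Monotone f := by
    intro f hf
    rw [mem_union, mem_filter, mem_filter] at hf
    rw [mem_filter]
    rcases hf with h | h
    · exact ⟨h.1, h.2.1⟩
    · exact ⟨h.1, h.2.1⟩
  have h3 := card_le_card hsub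
  rw [card_union_of_disjoint hd] at h3
  exact_mod_cast h3

theorem t_HALF : S_HALF := by
  intro P _ _
  unfold balance
  constructor
  · exact Real.iSup_nonneg fun q => le_min (prob_nonneg P _ _) (prob_nonneg P _ _)
  · refine Real.iSup_le (fun q => ?_) (by norm_num)
    have h := prob_add P q.1 q.2
    rcases le_total (prob P q.1 q.2) (prob P q.2 q.1) with h1 | h1
    · rw [min_eq_left h1]
      linarith
    · rw [min_eq_right h1]
      linarith

end Pool.Agent.Y491.FP.ISO
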