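import Pool.Agent.Y491.FP.Stm

/-!
# Project FP, LIRR, EXT and NOTD (by helper592)
-/

set_option autoImplicit false

open Finset
open scoped Classical

namespace Pool.Agent.Y491.FP.LIRR

open Pool.Agent.TH161.LW Pool.Agent.H13R3.WB Pool.Agent.Y491.BF Pool.Agent.Y491.FP

theorem t_LIRR (hB : S_BAND) : S_LIRR := by
  intro m n q p K l hT hl hL hI k hk0 hkm
  obtain ⟨s, hs⟩ : ∃ s, s = k - (2 * K + 1) := ⟨_, rfl⟩
  obtain ⟨t, ht⟩ : ∃ t, (t = m ∧ m ≤ k + 2 * K + 1) ∨ (t = k + 2 * K + 1 ∧ k + 2 * K + 1 < m) := by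
    by_cases h : m ≤ k + 2 * K + 1
    · exact ⟨m, Or.inl ⟨rfl, h⟩⟩
    · exact ⟨k + 2 * K + 1, Or.inr ⟨rfl, by omega⟩⟩
  obtain ⟨s', h1, h2, h3, h4⟩ := hL s t (by omega) (by omega) (by omega)
  obtain ⟨i, j, hi, hj, hjn, hrel⟩ := hI (s' + (k - s)) (by omega) (by omega)
  have hband := hB n p K i j hT (by omega) hjn hrel
  have h5 : s' ≤ i := by
    rcases Nat.eq_zero_or_pos s with h0 | h0
    · have := h2 h0
      omega
    · omega
  have h6 : j < s' + (t - s) := by
    rcases ht with ⟨ht, ht'⟩ | ⟨ht, ht'⟩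
    · have := h3 ht
      omega
    · omega
  refine ⟨s + (i - s'), s + (j - s'), by omega, by omega, by omega, ?_⟩
  rw [h4 (i - s') (j - s') (by omega) (by omega), show s' + (i - s') = i by omega,
    show s' + (j - s') = j by omega]
  exact hrel

theorem t_EXT : S_EXT := by
  intro P _ _
  let _ : Fintype (LinearExtension P) := inferInstanceAs (Fintype P)
  let g : Fin (Fintype.card P) ≃o LinearExtension P :=
    monoEquivOfFin (LinearExtension P) (show Fintype.card (LinearExtension P) = Fintype.card P from rfl)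
  let g' : Fin (Fintype.card P) ≃ P := g.toEquiv
  have hg : ∀ i j, g' i ≤ g' j → i ≤ j := by
    intro i j h
    have h1 : toLinearExtension (g' i) ≤ toLinearExtension (g' j) := toLinearExtension.monotone h
    exact g.le_iff_le.1 h1
  let p : NP (Fintype.card P) :=
    { rel := fun i j => ∃ (hi : i < Fintype.card P) (hj : j < Fintype.card P),
        g' ⟨i, hi⟩ ≤ g' ⟨j, hj⟩
      refl := fun i hi => ⟨hi, hi, le_rfl⟩
      le := by
        rintro i j hi hj ⟨_, _, h⟩
        exact hg _ _ h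
      trans := by
        rintro i j k _ _ _ ⟨hi, hj, h⟩ ⟨_, hk, h'⟩
        exact ⟨hi, hk, h.trans h'⟩ }
  refine ⟨p, ⟨⟨g'.symm, ?_⟩⟩⟩
  intro x y
  constructor
  · rintro ⟨h1, h2, h⟩
    have e1 : g' ⟨(g'.symm x).val, h1⟩ = x := g'.apply_symm_apply x
    have e2 : g' ⟨(g'.symm y).val, h2⟩ = y := g'.apply_symm_apply y
    rw [← e1, ← e2]
    exact h
  · intro h
    refine ⟨(g'.symm x).isLt, (g'.symm y).isLt, ?_⟩
    show g' (g'.symm x) ≤ g' (g'.symm y)
    rw [Equiv.apply_symm_apply, Equiv.apply_symm_apply]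
    exact h

theorem InD_nonempty {P : Type} [PartialOrder P] (h : InD P) : Nonempty P := by
  induction h with
  | one P e =>
    obtain ⟨e⟩ := e
    exact ⟨e.symm 0⟩
  | three P e =>
    obtain ⟨e⟩ := e
    exact ⟨e.symm (Sum.inl 0)⟩
  | sum P Q R _ _ e ihP ihQ =>
    obtain ⟨e⟩ := e
    obtain ⟨x⟩ := ihP
    exact ⟨e.symm (toLex (Sum.inl x))⟩

theorem notD_aux {R : Type} [PartialOrder R] (h : InD R) : ∀ (n : ℕ) (p : NP n),
    Nonempty (R ≃o p.El) → Irr p → n = 1 ∨ n = 3 := by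
  cases h with
  | one P e =>
    obtain ⟨e⟩ := e
    rintro n p ⟨f⟩ _
    left
    have h1 : Fintype.card p.El = Fintype.card (Fin 1) :=
      Fintype.card_congr (f.symm.trans e).toEquiv
    have h2 : Fintype.card p.El = n := Fintype.card_fin n
    rw [← h2, h1, Fintype.card_fin]
  | three P e =>
    obtain ⟨e⟩ := e
    rintro n p ⟨f⟩ _
    right
    have h1 : Fintype.card p.El = Fintype.card (Fin 2 ⊕ Fin 1) :=
      Fintype.card_congr (f.symm.trans e).toEquiv
    have h2 : Fintype.card p.El = n := Fintype.card_fin n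
    rw [← h2, h1, Fintype.card_sum, Fintype.card_fin, Fintype.card_fin]
  | sum P Q R hP hQ e =>
    obtain ⟨e⟩ := e
    rintro n p ⟨f⟩ hI
    exfalso
    obtain ⟨x0⟩ := InD_nonempty hP
    obtain ⟨y0⟩ := InD_nonempty hQ
    let φ : (P ⊕ₗ Q) ≃o p.El := e.symm.trans f
    let lab : p.El → ℕ := fun a => Fin.val (n := n) a
    have hlab : ∀ a, lab a < n := fun a => Fin.isLt (n := n) a
    have hlabi : ∀ a b, lab a = lab b → a = b := fun a b h => Fin.ext (n := n) h
    have hle : ∀ (x : P) (y : Q), p.rel (lab (φ (toLex (Sum.inl x)))) (lab (φ (toLex (Sum.inr y)))) := by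
      intro x y
      have h1 : (toLex (Sum.inl x) : P ⊕ₗ Q) ≤ toLex (Sum.inr y) := Sum.Lex.sep _ _
      exact φ.monotone h1
    have hlt : ∀ (x : P) (y : Q), lab (φ (toLex (Sum.inl x))) < lab (φ (toLex (Sum.inr y))) := by
      intro x y
      refine lt_of_le_of_ne (p.le _ _ (hlab _) (hlab _) (hle x y)) ?_
      intro h
      have h1 := φ.injective (hlabi _ _ h)
      have h2 : (Sum.inl x : P ⊕ Q) = Sum.inr y := toLex.injective h1
      exact absurd h2 (by simp)
    have hex : ∃ k, ∃ y : Q, lab (φ (toLex (Sum.inr y))) = k := ⟨_, y0, rfl⟩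
    obtain ⟨y1, hy1⟩ := Nat.find_spec hex
    have hmin : ∀ y : Q, Nat.find hex ≤ lab (φ (toLex (Sum.inr y))) :=
      fun y => Nat.find_min' hex ⟨y, rfl⟩
    have hk0 : 0 < Nat.find hex := by
      rw [← hy1]
      exact lt_of_le_of_lt (Nat.zero_le _) (hlt x0 y1)
    have hkn : Nat.find hex < n := by
      rw [← hy1]
      exact hlab _
    have hsurj : ∀ i, i < n → (∃ x : P, lab (φ (toLex (Sum.inl x))) = i) ∨
        ∃ y : Q, lab (φ (toLex (Sum.inr y))) = i := by
      intro i hi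
      obtain ⟨z, hz⟩ := φ.surjective (p.mk' i hi)
      have hz' : lab (φ z) = i := by
        rw [hz]
        rfl
      rcases hzz : ofLex z with x | y
      · left
        refine ⟨x, ?_⟩
        rw [← hzz]
        exact hz'
      · right
        refine ⟨y, ?_⟩
        rw [← hzz]
        exact hz'
    obtain ⟨i, j, hi, hj, hjn, hrel⟩ := hI _ hk0 hkn
    apply hrel
    rcases hsurj i (by omega) with ⟨x, hx⟩ | ⟨y, hy⟩
    · rcases hsurj j hjn with ⟨x', hx'⟩ | ⟨y', hy'⟩
      · have := hlt x' y1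
        omega
      · rw [← hx, ← hy']
        exact hle x y'
    · have := hmin y
      omega

theorem t_NOTD : S_NOTD := fun n p hI hD => notD_aux hD n p ⟨OrderIso.refl _⟩ hI

end Pool.Agent.Y491.FP.LIRR
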