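import Pool.Agent.Y491.FP.Stm

/-!
# Project FP: LOC and WTH (helper96)
-/

set_option autoImplicit false

open Finset
open scoped Classical

namespace Pool.Agent.Y491.FP.LOC

open Pool.Agent.TH161.LW Pool.Agent.H13R3.WB Pool.Agent.Y491.BF

/-- the order of `q.El` as an order on `Fin n` -/
abbrev po {n : ℕ} (q : NP n) : PartialOrder (Fin n) := inferInstanceAs (PartialOrder q.El)

theorem po_eq {n : ℕ} (q1 q2 : NP n)
    (hr : ∀ i j, i < n → j < n → (q1.rel i j ↔ q2.rel i j)) : po q1 = po q2 := by
  apply PartialOrder.ext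
  intro a b
  exact hr a.val b.val a.isLt b.isLt

/-- `pp` depends only on the relation on the labels -/
theorem pp_congr {n m : ℕ} (hnm : n = m) (q1 : NP n) (q2 : NP m)
    (hr : ∀ i j, i < n → j < n → (q1.rel i j ↔ q2.rel i j)) (x y : ℕ) :
    pp q1 x y = pp q2 x y := by
  subst hnm
  unfold pp
  by_cases h : x < n ∧ y < n
  · rw [dif_pos h, dif_pos h]
    have key : @prob (Fin n) _ (po q1) ⟨x, h.1⟩ ⟨y, h.2⟩ =
        @prob (Fin n) _ (po q2) ⟨x, h.1⟩ ⟨y, h.2⟩ := by
      rw [po_eq q1 q2 hr]
    exact key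
  · rw [dif_neg h, dif_neg h]

theorem balance_congr {n m : ℕ} (hnm : n = m) (q1 : NP n) (q2 : NP m)
    (hr : ∀ i j, i < n → j < n → (q1.rel i j ↔ q2.rel i j)) :
    balance q1.El = balance q2.El := by
  subst hnm
  have key : @balance (Fin n) _ (po q1) = @balance (Fin n) _ (po q2) := by
    rw [po_eq q1 q2 hr]
  exact key

/-- the element of the poset with the label of an element of the window -/
def lift {n : ℕ} (p : NP n) (s t : ℕ) (h : t ≤ n) (a : (p.win s t h).El) : p.El :=
  p.mk' (s + Fin.val (n := t - s) a) (by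
    have := Fin.isLt (n := t - s) a
    omega)

theorem lift_le {n : ℕ} (p : NP n) (s t : ℕ) (h : t ≤ n) (a b : (p.win s t h).El) :
    lift p s t h a ≤ lift p s t h b ↔ a ≤ b := Iff.rfl

theorem lift_inj {n : ℕ} (p : NP n) (s t : ℕ) (h : t ≤ n) :
    Function.Injective (lift p s t h) := by
  intro a b hab
  have h1 : s + Fin.val (n := t - s) a = s + Fin.val (n := t - s) b :=
    congrArg (Fin.val (n := n)) hab
  exact Fin.ext (n := t - s) (by omega)

theorem t_WTH : S_WTH := by
  intro n p K s t h hT x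
  refine le_trans ?_ (hT (lift p s t h x))
  refine Finset.card_le_card_of_injOn (lift p s t h) ?_ (lift_inj p s t h).injOn
  intro w hw
  have hw' := (Finset.mem_filter.1 (Finset.mem_coe.1 hw)).2
  refine Finset.mem_coe.2 (Finset.mem_filter.2 ⟨Finset.mem_univ _, ?_, ?_⟩)
  · exact fun h1 => hw'.1 ((lift_le p s t h w x).1 h1)
  · exact fun h1 => hw'.2 ((lift_le p s t h x w).1 h1)

theorem th_nonneg (K : ℕ) : 0 ≤ th K := by
  unfold th
  have h1 : (1 : ℝ) ≤ (K.factorial : ℝ) := by exact_mod_cast K.factorial_pos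
  have h2 : 1 / (K.factorial : ℝ) ≤ 1 := by
    rw [div_le_one (by linarith)]
    exact h1
  linarith

theorem t_LOC (h1 : S_LOW) (h2 : S_HIGH) : S_LOC := by
  intro n p K m s t x y h hT hsx hsy hxt hyt hs ht
  have hth : 0 ≤ th K ^ m := pow_nonneg (th_nonneg K) m
  have a1 : |pp p x y - pp (p.win s n le_rfl) (x - s) (y - s)| ≤ th K ^ m := by
    rcases hs with hs | hs
    · subst hs
      have e : pp p x y = pp (p.win 0 n le_rfl) (x - 0) (y - 0) := by
        refine pp_congr (Nat.sub_zero n).symm p (p.win 0 n le_rfl) ?_ x y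
        intro i j _ _
        show p.rel i j ↔ p.rel (0 + i) (0 + j)
        rw [Nat.zero_add, Nat.zero_add]
      rw [e, sub_self, abs_zero]
      exact hth
    · exact h1 n p K m s x y hT hs.1 hs.2 (by omega) (by omega)
  have a2 : |pp (p.win s n le_rfl) (x - s) (y - s) - pp (p.win s t h) (x - s) (y - s)| ≤
      th K ^ m := by
    rcases ht with ht | ht
    · subst ht
      rw [sub_self, abs_zero]
      exact hth
    · have hle : t - s ≤ n - s := by omega
      have e : pp ((p.win s n le_rfl).win 0 (t - s) hle) (x - s) (y - s) =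
          pp (p.win s t h) (x - s) (y - s) := by
        refine pp_congr (Nat.sub_zero _) _ _ ?_ _ _
        intro i j _ _
        show p.rel (s + (0 + i)) (s + (0 + j)) ↔ p.rel (s + i) (s + j)
        rw [Nat.zero_add, Nat.zero_add]
      rw [← e]
      exact h2 (n - s) (p.win s n le_rfl) K m (t - s) (x - s) (y - s) hle
        (t_WTH n p K s n le_rfl hT) (by omega) (by omega)
  have a3 := abs_sub_le (pp p x y) (pp (p.win s n le_rfl) (x - s) (y - s))
    (pp (p.win s t h) (x - s) (y - s))
  linarith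

end Pool.Agent.Y491.FP.LOC
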