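import Pool.Agent.Y491.FP.T_DOE

/-!
Project FP (helper491), job LOW (helper38): removing an initial window.
-/

set_option autoImplicit false

open Finset
open scoped Classical

namespace Pool.Agent.Y491.FP.LOW

open Pool.Agent.TH161.LW Pool.Agent.H13R3.WB Pool.Agent.Y491.BF Pool.Agent.Y491.FP
  Pool.Agent.Y491.FP.DOE

variable {n : ℕ}

/-- the label -/
def lab (p : NP n) (a : p.El) : ℕ := Fin.val (n := n) a

lemma lab_lt (p : NP n) (a : p.El) : lab p a < n := Fin.isLt (n := n) a

lemma lab_mk (p : NP n) (i : ℕ) (h : i < n) : lab p (p.mk' i h) = i := rfl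

lemma lab_inj (p : NP n) {a b : p.El} (h : lab p a = lab p b) : a = b := Fin.ext (n := n) h

lemma le_def (p : NP n) (a b : p.El) : a ≤ b ↔ p.rel (lab p a) (lab p b) := Iff.rfl

lemma lab_le (p : NP n) {a b : p.El} (h : a ≤ b) : lab p a ≤ lab p b :=
  p.le _ _ (lab_lt p a) (lab_lt p b) h

lemma card_lab_lt (p : NP n) {s : ℕ} (hs : s ≤ n) :
    (univ.filter fun a : p.El => lab p a < s).card = s := by
  have h : (univ.filter fun a : p.El => lab p a < s).card = (range s).card := by
    refine Finset.card_bij (fun a _ => lab p a) ?_ ?_ ?_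
    · intro a ha
      exact Finset.mem_range.2 (Finset.mem_filter.1 ha).2
    · intro a _ b _ hab
      exact lab_inj p hab
    · intro i hi
      rw [Finset.mem_range] at hi
      exact ⟨p.mk' i (by omega), Finset.mem_filter.2 ⟨Finset.mem_univ _, hi⟩, rfl⟩
  rw [h, Finset.card_range]

lemma notMem_low (p : NP n) {K m s z : ℕ} (hK : Thin K p.El) (hz : s + (m + 1) * K ≤ z)
    (hzn : z < n) (A : Finset p.El) (hA : Low A) (hc : A.card ≤ s + m * K) :
    p.mk' z hzn ∉ A := by
  intro hzA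
  have h1 : (univ.filter fun a : p.El => lab p a < z + 1) ⊆
      A ∪ (univ.filter fun w : p.El => ¬ w ≤ p.mk' z hzn ∧ ¬ p.mk' z hzn ≤ w) := by
    intro v hv
    have hv' : lab p v < z + 1 := (Finset.mem_filter.1 hv).2
    by_cases h2 : v ≤ p.mk' z hzn
    · exact Finset.mem_union_left _ (hA v _ h2 hzA)
    · refine Finset.mem_union_right _ (Finset.mem_filter.2 ⟨Finset.mem_univ _, h2, fun h3 => h2 ?_⟩)
      have h4 := lab_le p h3
      rw [lab_mk] at h4
      have h5 : v = p.mk' z hzn := lab_inj p (by rw [lab_mk]; omega)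
      rw [h5]
  have h2 := Finset.card_le_card h1
  rw [card_lab_lt p (by omega : z + 1 ≤ n)] at h2
  have h3 := Finset.card_union_le A
    (univ.filter fun w : p.El => ¬ w ≤ p.mk' z hzn ∧ ¬ p.mk' z hzn ≤ w)
  have h4 := hK (p.mk' z hzn)
  have h5 : (m + 1) * K = m * K + K := by ring
  omega

/-- the final window -/
def winIso (p : NP n) (s : ℕ) (I : Finset p.El) (hI : ∀ a, a ∈ I ↔ s ≤ lab p a) :
    {a : p.El // a ∈ I} ≃o (p.win s n le_rfl).El where
  toFun a := (p.win s n le_rfl).mk' (lab p a.1 - s)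
    (by have := lab_lt p a.1; have := (hI a.1).1 a.2; omega)
  invFun b := ⟨p.mk' (s + lab (p.win s n le_rfl) b)
    (by have := lab_lt (p.win s n le_rfl) b; omega), (hI _).2 (by rw [lab_mk]; omega)⟩
  left_inv a := by
    have h := (hI a.1).1 a.2
    refine Subtype.ext (lab_inj p ?_)
    show s + (lab p a.1 - s) = lab p a.1
    omega
  right_inv b := by
    refine lab_inj (p.win s n le_rfl) ?_
    show s + lab (p.win s n le_rfl) b - s = lab (p.win s n le_rfl) b
    omega
  map_rel_iff' := by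
    intro a b
    have ha := (hI a.1).1 a.2
    have hb := (hI b.1).1 b.2
    show p.rel (s + (lab p a.1 - s)) (s + (lab p b.1 - s)) ↔ p.rel (lab p a.1) (lab p b.1)
    rw [Nat.add_sub_cancel' ha, Nat.add_sub_cancel' hb]

theorem t_LOW' (h : S_DOE) : S_LOW := by
  intro n p K m s x y hK hx hy hxn hyn
  have hsx : s ≤ x := le_trans (Nat.le_add_right _ _) hx
  have hsy : s ≤ y := le_trans (Nat.le_add_right _ _) hy
  set I : Finset p.El := univ.filter fun a : p.El => lab p a < s with hI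
  have hIlow : Low I := by
    intro a b hab hb
    have h1 := lab_le p hab
    have h2 : lab p b < s := (Finset.mem_filter.1 hb).2
    exact Finset.mem_filter.2 ⟨Finset.mem_univ _, by omega⟩
  have hIc : I.card = s := card_lab_lt p (by omega)
  have hIm : ∀ a, a ∈ Iᶜ ↔ s ≤ lab p a := by
    intro a
    rw [Finset.mem_compl, hI, Finset.mem_filter, not_and, not_lt]
    exact ⟨fun h => h (Finset.mem_univ _), fun h _ => h⟩
  have h1 := h p.El K m s (p.mk' x hxn) (p.mk' y hyn) I hK hIlow hIc (fun A hA hAc =>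
    ⟨notMem_low p hK hx hxn A hA hAc, notMem_low p hK hy hyn A hA hAc⟩)
  have h2 : pp p x y = prob p.El (p.mk' x hxn) (p.mk' y hyn) := by
    unfold pp
    rw [dif_pos ⟨hxn, hyn⟩]
  have hx' : x - s < n - s := by omega
  have hy' : y - s < n - s := by omega
  have h3 : pp (p.win s n le_rfl) (x - s) (y - s) =
      (eF Iᶜ (p.mk' x hxn) (p.mk' y hyn) : ℝ) / eS Iᶜ := by
    have hxI : p.mk' x hxn ∈ Iᶜ := (hIm _).2 (by rw [lab_mk]; exact hsx)
    have hyI : p.mk' y hyn ∈ Iᶜ := (hIm _).2 (by rw [lab_mk]; exact hsy)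
    unfold pp
    rw [dif_pos ⟨hx', hy'⟩, DOE.prob_eq]
    have e1 : eS Iᶜ = eN (p.win s n le_rfl).El :=
      eN_congr (P := {a : p.El // a ∈ Iᶜ}) (winIso p s Iᶜ hIm)
    have e2 : eF Iᶜ (p.mk' x hxn) (p.mk' y hyn) = eP (p.win s n le_rfl).El
        ((p.win s n le_rfl).mk' (x - s) hx') ((p.win s n le_rfl).mk' (y - s) hy') := by
      unfold eF
      rw [dif_pos ⟨hxI, hyI⟩]
      exact eP_congr (P := {a : p.El // a ∈ Iᶜ}) (winIso p s Iᶜ hIm) ⟨p.mk' x hxn, hxI⟩
        ⟨p.mk' y hyn, hyI⟩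
    rw [e1, e2]
  rw [h2, h3]
  exact h1

theorem t_LOW (h : S_DOE) (_h2 : S_ISO) : S_LOW := t_LOW' h

end Pool.Agent.Y491.FP.LOW
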