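import Pool.Agent.Y491.FP.Stm

/-!
# Project FP, job NUM: the numbers
-/

set_option autoImplicit false

open Finset
open scoped Classical

namespace Pool.Agent.Y491.FP.NUM

open Pool.Agent.Y491.FP

theorem one_lt_E {ε : ℝ} (h0 : 0 < ε) (h1 : ε ≤ 1 / 2) :
    1 ≤ Real.log (2 / ε) ∧ Real.log (2 / ε) ≤ Real.log (2 / ε) ^ 3 / ε ^ 4 := by
  have hl : 1 ≤ Real.log (2 / ε) := by
    have h4 : (4 : ℝ) ≤ 2 / ε := by
      rw [le_div_iff₀ h0]; linarith
    have h5 : Real.exp 1 ≤ 2 / ε := by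
      have := Real.exp_one_lt_d9
      linarith
    rw [Real.le_log_iff_exp_le (by linarith)]
    exact h5
  refine ⟨hl, ?_⟩
  rw [le_div_iff₀ (by positivity)]
  have h4 : ε ^ 4 ≤ 1 := pow_le_one₀ h0.le (by linarith)
  have h2 : Real.log (2 / ε) ≤ Real.log (2 / ε) ^ 3 := by
    nlinarith [mul_self_nonneg (Real.log (2 / ε)), mul_pos (by linarith : (0 : ℝ) < Real.log (2 / ε)) (by linarith : (0 : ℝ) < Real.log (2 / ε))]
  nlinarith

theorem log_four {ε : ℝ} (h0 : 0 < ε) (h1 : ε ≤ 1 / 2) :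
    Real.log (4 / ε) ≤ 2 * Real.log (2 / ε) := by
  have h : (4 / ε) ≤ (2 / ε) ^ 2 := by
    rw [div_pow, div_le_div_iff₀ h0 (by positivity)]
    nlinarith [mul_pos h0 h0]
  calc Real.log (4 / ε) ≤ Real.log ((2 / ε) ^ 2) := Real.log_le_log (by positivity) h
    _ = 2 * Real.log (2 / ε) := by rw [Real.log_pow]; norm_num

theorem fact_le (K : ℕ) : ((K.factorial : ℕ) : ℝ) ≤ Real.exp ((K : ℝ) ^ 2) := by
  have h1 : ((K.factorial : ℕ) : ℝ) ≤ (K : ℝ) ^ K := by
    exact_mod_cast Nat.factorial_le_pow K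
  have h2 : (K : ℝ) ≤ Real.exp K := by
    have := Real.add_one_le_exp (K : ℝ)
    linarith
  calc ((K.factorial : ℕ) : ℝ) ≤ (K : ℝ) ^ K := h1
    _ ≤ (Real.exp K) ^ K := pow_le_pow_left₀ (by positivity) h2 K
    _ = Real.exp ((K : ℝ) ^ 2) := by
        rw [← Real.exp_nat_mul]
        congr 1
        ring

theorem t_NUM : S_NUM := by
  intro B₀ hB
  refine ⟨2 * B₀ + 6, by linarith, ?_⟩
  intro ε h0 h1
  obtain ⟨hl, hE⟩ := one_lt_E h0 h1
  have hlog4 := log_four h0 h1
  have hEB : ∀ B : ℝ, B * Real.log (2 / ε) ^ 3 / ε ^ 4 = B * (Real.log (2 / ε) ^ 3 / ε ^ 4) := by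
    intro B; ring
  simp only [hEB]
  generalize Real.log (2 / ε) ^ 3 / ε ^ 4 = E at *
  have hE1 : 1 ≤ E := le_trans hl hE
  set a : ℝ := Real.exp (B₀ * E) with ha
  have ha1 : 1 ≤ a := by
    rw [ha]; exact Real.one_le_exp (by positivity)
  set K : ℕ := ⌈a⌉₊ with hK
  have hK1 : 1 ≤ K := by
    rw [hK]; exact Nat.one_le_ceil_iff.2 (by linarith)
  have hK2 : (K : ℝ) ≤ 2 * a := by
    have := Nat.ceil_lt_add_one (by linarith : (0 : ℝ) ≤ a)
    rw [← hK] at this
    linarith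
  have hKf : (0 : ℝ) < ((K.factorial : ℕ) : ℝ) := by exact_mod_cast K.factorial_pos
  have hKf1 : (1 : ℝ) ≤ ((K.factorial : ℕ) : ℝ) := by exact_mod_cast K.factorial_pos
  have hlp : 0 ≤ Real.log (4 / ε) := by
    apply Real.log_nonneg
    rw [le_div_iff₀ h0]; linarith
  refine ⟨⌈((K.factorial : ℕ) : ℝ) * Real.log (4 / ε)⌉₊, ?_, ?_⟩
  · set k : ℕ := ⌈((K.factorial : ℕ) : ℝ) * Real.log (4 / ε)⌉₊ with hk
    have hk1 : ((K.factorial : ℕ) : ℝ) * Real.log (4 / ε) ≤ k := Nat.le_ceil _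
    have hth0 : 0 ≤ th K := by
      unfold th
      rw [sub_nonneg, div_le_one hKf]
      exact hKf1
    have hth1 : th K ≤ Real.exp (-(1 / ((K.factorial : ℕ) : ℝ))) := by
      unfold th
      have := Real.add_one_le_exp (-(1 / ((K.factorial : ℕ) : ℝ)))
      linarith
    have h3 : th K ^ k ≤ ε / 4 := by
      calc th K ^ k ≤ (Real.exp (-(1 / ((K.factorial : ℕ) : ℝ)))) ^ k :=
            pow_le_pow_left₀ hth0 hth1 k
        _ = Real.exp (k * (-(1 / ((K.factorial : ℕ) : ℝ)))) := by rw [Real.exp_nat_mul]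
        _ ≤ Real.exp (-Real.log (4 / ε)) := by
            apply Real.exp_le_exp.2
            have : Real.log (4 / ε) ≤ k * (1 / ((K.factorial : ℕ) : ℝ)) := by
              rw [mul_one_div, le_div_iff₀ hKf]
              linarith
            linarith
        _ = ε / 4 := by
            rw [Real.exp_neg, Real.exp_log (by positivity)]
            field_simp
    linarith
  · intro K' l L hK' hl' hL'
    subst hK'
    set k : ℕ := ⌈((K.factorial : ℕ) : ℝ) * Real.log (4 / ε)⌉₊ with hk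
    have hk1 : (k : ℝ) ≤ ((K.factorial : ℕ) : ℝ) * Real.log (4 / ε) + 1 :=
      (Nat.ceil_lt_add_one (by positivity)).le
    have hKr1 : (1 : ℝ) ≤ K := by exact_mod_cast hK1
    -- X
    set X : ℝ := (K : ℝ) ^ 2 + E with hX
    have hX1 : 1 ≤ X := by nlinarith
    set y : ℝ := Real.exp X with hy
    have hy1 : 1 ≤ y := Real.one_le_exp (by linarith)
    have hKy : (K : ℝ) ≤ y := by
      have h := Real.add_one_le_exp X
      nlinarith
    have hky : (k : ℝ) ≤ 3 * y := by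
      have h2 : ((K.factorial : ℕ) : ℝ) * Real.log (4 / ε) ≤ Real.exp ((K : ℝ) ^ 2) * (2 * E) :=
        mul_le_mul (fact_le K) (by linarith) hlp (Real.exp_pos _).le
      have h3 : Real.exp ((K : ℝ) ^ 2) * (2 * E) ≤ 2 * y := by
        have h4 : E ≤ Real.exp E := by
          have := Real.add_one_le_exp E
          linarith
        have h5 : y = Real.exp ((K : ℝ) ^ 2) * Real.exp E := by rw [hy, hX, Real.exp_add]
        rw [h5]
        nlinarith [Real.exp_pos ((K : ℝ) ^ 2)]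
      linarith
    have hlr : (l : ℝ) = 2 * ((k : ℝ) + 1) * K + 4 * K + 2 := by
      rw [hl']; push_cast; ring
    have hLr : (L : ℝ) = l + 4 * K := by
      rw [hL']; push_cast; ring
    have hly : (l : ℝ) ≤ 14 * y ^ 2 := by
      rw [hlr]
      have h1 : ((k : ℝ) + 1) * K ≤ (3 * y + 1) * y :=
        mul_le_mul (by linarith) hKy (by linarith) (by linarith)
      nlinarith
    have hLy : (L : ℝ) ≤ 18 * y ^ 2 := by
      rw [hLr]
      nlinarith
    have h18 : (18 : ℝ) ≤ y ^ 3 := by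
      have h := Real.exp_one_gt_d9
      have h2 : Real.exp 1 ≤ y := Real.exp_le_exp.2 hX1
      have h3 : (2.71 : ℝ) ≤ y := by linarith
      calc (18 : ℝ) ≤ 2.71 ^ 3 := by norm_num
        _ ≤ y ^ 3 := pow_le_pow_left₀ (by norm_num) h3 3
    have hLy5 : (L : ℝ) ≤ y ^ 5 := by
      calc (L : ℝ) ≤ 18 * y ^ 2 := hLy
        _ ≤ y ^ 3 * y ^ 2 := mul_le_mul_of_nonneg_right h18 (by positivity)
        _ = y ^ 5 := by ring
    have hLL : (L : ℝ) * L ≤ y ^ 10 := by
      calc (L : ℝ) * L ≤ y ^ 5 * y ^ 5 := mul_le_mul hLy5 hLy5 (by positivity) (by positivity)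
        _ = y ^ 10 := by ring
    set z : ℝ := Real.exp (y ^ 10) with hz
    have hpow : ((2 : ℝ) ^ (L * L)) ≤ z := by
      calc ((2 : ℝ) ^ (L * L)) ≤ (Real.exp 1) ^ (L * L) :=
            pow_le_pow_left₀ (by norm_num) (by have := Real.exp_one_gt_d9; linarith) _
        _ = Real.exp ((L : ℝ) * L) := by
            rw [← Real.exp_nat_mul]; push_cast; ring_nf
        _ ≤ z := Real.exp_le_exp.2 hLL
    have hyz : y ^ 2 ≤ z := by
      have h2 := Real.add_one_le_exp (y ^ 10)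
      have h3 : y ^ 2 ≤ y ^ 10 := pow_le_pow_right₀ hy1 (by norm_num)
      linarith
    have htot : ((2 * (2 ^ (L * L) + L + l + 2 * K + 3) : ℕ) : ℝ) ≤ 76 * z := by
      push_cast
      have h6 : (1 : ℝ) ≤ y ^ 2 := one_le_pow₀ hy1
      have h7 : y ≤ y ^ 2 := by nlinarith
      linarith
    refine le_trans htot ?_
    have h76 : 76 * z ≤ Real.exp (5 + y ^ 10) := by
      rw [Real.exp_add]
      have h5 : (76 : ℝ) ≤ Real.exp 5 := by
        have h := Real.exp_one_gt_d9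
        have h2 : Real.exp 5 = (Real.exp 1) ^ 5 := by
          rw [← Real.exp_nat_mul]; norm_num
        rw [h2]
        calc (76 : ℝ) ≤ 2.71 ^ 5 := by norm_num
          _ ≤ (Real.exp 1) ^ 5 := pow_le_pow_left₀ (by norm_num) (by linarith) 5
      exact mul_le_mul_of_nonneg_right h5 (Real.exp_pos _).le
    refine le_trans h76 (Real.exp_le_exp.2 ?_)
    -- 5 + y^10 ≤ y^11 * ... ≤ exp (exp ..)
    have h11 : 5 + y ^ 10 ≤ Real.exp (11 * X) := by
      have h2 : Real.exp (11 * X) = y ^ 11 := by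
        rw [hy, ← Real.exp_nat_mul]; norm_num
      rw [h2]
      have h3 : (2 : ℝ) ≤ y := by
        have := Real.add_one_le_exp X
        linarith
      have h4 : (5 : ℝ) ≤ y ^ 10 := by
        calc (5 : ℝ) ≤ 2 ^ 10 := by norm_num
          _ ≤ y ^ 10 := pow_le_pow_left₀ (by norm_num) h3 10
      calc 5 + y ^ 10 ≤ 2 * y ^ 10 := by linarith
        _ ≤ y * y ^ 10 := mul_le_mul_of_nonneg_right h3 (by positivity)
        _ = y ^ 11 := by ring
    refine le_trans h11 (Real.exp_le_exp.2 ?_)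
    -- 11 X ≤ exp ((2 B₀ + 6) E)
    have ha2 : a ^ 2 = Real.exp (2 * B₀ * E) := by
      rw [ha, ← Real.exp_nat_mul]; congr 1; push_cast; ring
    have hX2 : X ≤ 5 * (a ^ 2 * Real.exp E) := by
      have h4 : E ≤ Real.exp E := by
        have := Real.add_one_le_exp E
        linarith
      have h5 : 1 ≤ Real.exp E := Real.one_le_exp (by linarith)
      have h6 : (K : ℝ) ^ 2 ≤ 4 * a ^ 2 := by
        calc (K : ℝ) ^ 2 ≤ (2 * a) ^ 2 := pow_le_pow_left₀ (by linarith) hK2 2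
          _ = 4 * a ^ 2 := by ring
      have h7 : 1 ≤ a ^ 2 := one_le_pow₀ ha1
      have h8 : a ^ 2 ≤ a ^ 2 * Real.exp E := le_mul_of_one_le_right (by positivity) h5
      have h9 : Real.exp E ≤ a ^ 2 * Real.exp E := le_mul_of_one_le_left (Real.exp_pos E).le h7
      rw [hX]
      linarith
    have h55 : (55 : ℝ) ≤ Real.exp (5 * E) := by
      have h := Real.exp_one_gt_d9
      have h2 : Real.exp 5 = (Real.exp 1) ^ 5 := by
        rw [← Real.exp_nat_mul]; norm_num
      calc (55 : ℝ) ≤ 2.71 ^ 5 := by norm_num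
        _ ≤ (Real.exp 1) ^ 5 := pow_le_pow_left₀ (by norm_num) (by linarith) 5
        _ = Real.exp 5 := h2.symm
        _ ≤ Real.exp (5 * E) := Real.exp_le_exp.2 (by linarith)
    calc 11 * X ≤ 55 * (a ^ 2 * Real.exp E) := by linarith
      _ ≤ Real.exp (5 * E) * (a ^ 2 * Real.exp E) :=
          mul_le_mul_of_nonneg_right h55 (by positivity)
      _ = Real.exp ((2 * B₀ + 6) * E) := by
          rw [ha2, ← Real.exp_add, ← Real.exp_add]; congr 1; ring

end Pool.Agent.Y491.FP.NUM
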