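import Pool.Agent.Y491.FP.Stm

/-!
# Project FP: two equal windows, and the reduction to a short poset (helper147)
-/

set_option autoImplicit false

open Finset
open scoped Classical

namespace Pool.Agent.Y491.FP.RED

open Pool.Agent.Y491.FP

theorem like_refl (l : ℕ) {n : ℕ} (p : NP n) : Like l p p := by
  intro s t hst htn htl
  exact ⟨s, by omega, fun h => h, fun h => by omega, fun i j _ _ => Iff.rfl⟩

theorem like_trans {l m n k : ℕ} {q : NP m} {r : NP n} {p : NP k} (h1 : Like l q r)
    (h2 : Like l r p) : Like l q p := by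
  intro s t hst htm htl
  obtain ⟨s1, h11, h12, h13, h14⟩ := h1 s t hst htm htl
  obtain ⟨s2, h21, h22, h23, h24⟩ := h2 s1 (s1 + (t - s)) (by omega) h11 (by omega)
  have e : s1 + (t - s) - s1 = t - s := by omega
  rw [e] at h21 h23 h24
  exact ⟨s2, h21, fun h0 => h22 (h12 h0), fun ht => h23 (h13 ht),
    fun i j hi hj => (h14 i j hi hj).trans (h24 i j hi hj)⟩

/-- two equal windows -/
theorem t_PIG : S_PIG := by
  intro n p L lo
  let f : ℕ → (Fin L × Fin L → Bool) := fun a ij =>
    decide (p.rel (a + (ij.1 : ℕ)) (a + (ij.2 : ℕ)))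
  have hcard : (univ : Finset (Fin L × Fin L → Bool)).card <
      (Finset.Icc lo (lo + 2 ^ (L * L))).card := by
    rw [Finset.card_univ, Fintype.card_fun, Fintype.card_prod, Fintype.card_fin,
      Fintype.card_bool, Nat.card_Icc]
    omega
  obtain ⟨a, ha, b, hb, hab, hf⟩ := Finset.exists_ne_map_eq_of_card_lt_of_maps_to hcard
    (f := f) (fun a _ => Finset.mem_coe.2 (mem_univ (f a)))
  rw [mem_Icc] at ha hb
  have key : ∀ i j, i < L → j < L → (p.rel (a + i) (a + j) ↔ p.rel (b + i) (b + j)) := by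
    intro i j hi hj
    have h1 := congrFun hf (⟨i, hi⟩, ⟨j, hj⟩)
    simpa [f] using h1
  rcases lt_or_gt_of_ne hab with h | h
  · exact ⟨a, b, ha.1, h, hb.2, key⟩
  · exact ⟨b, a, hb.1, h, ha.2, fun i j hi hj => (key i j hi hj).symm⟩

/-- a short poset with the same windows -/
theorem t_RED (hG : S_GLU) (hP : S_PIG) : S_RED := by
  intro n
  induction n using Nat.strong_induction_on with
  | _ n ih =>
  intro p K l L z h hT hl hL hh hz
  by_cases hn : n ≤ 2 * (2 ^ (L * L) + L + l + 2 * K + 3)
  · exact ⟨n, p, z, hn, Or.inl rfl, hT, like_refl l p, hz, fun i j _ _ => Iff.rfl⟩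
  push Not at hn
  by_cases hc : z + h ≤ n / 2
  · obtain ⟨a, b, ha, hab, hb, hw⟩ := hP n p L (n / 2)
    have hbn : b + L + l ≤ n := by omega
    obtain ⟨q1, hT1, hL1, hlow, _⟩ := hG n p K l L a b hT hl hL hab hbn hw
    obtain ⟨m, q, z', hm, hmL, hTq, hLq, hz', hq⟩ :=
      ih (n - (b - a)) (by omega) q1 K l L z h hT1 hl hL hh (by omega)
    refine ⟨m, q, z', hm, Or.inr ?_, hTq, like_trans hLq hL1, hz', fun i j hi hj =>
      (hq i j hi hj).trans (hlow _ _ (by omega) (by omega))⟩
    rcases hmL with h1 | h1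
    · omega
    · exact h1
  · push Not at hc
    obtain ⟨a, b, _, hab, hb, hw⟩ := hP n p L 0
    rw [zero_add] at hb
    have hbn : b + L + l ≤ n := by omega
    have hbz : b ≤ z := by omega
    obtain ⟨q1, hT1, hL1, _, hup⟩ := hG n p K l L a b hT hl hL hab hbn hw
    obtain ⟨m, q, z', hm, hmL, hTq, hLq, hz', hq⟩ :=
      ih (n - (b - a)) (by omega) q1 K l L (z - (b - a)) h hT1 hl hL hh (by omega)
    refine ⟨m, q, z', hm, Or.inr ?_, hTq, like_trans hLq hL1, hz', fun i j hi hj => ?_⟩
    · rcases hmL with h1 | h1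
      · omega
      · exact h1
    · have h1 := hup (z - (b - a) + i) (z - (b - a) + j) (by omega) (by omega) (by omega)
        (by omega)
      have e1 : z - (b - a) + i + (b - a) = z + i := by omega
      have e2 : z - (b - a) + j + (b - a) = z + j := by omega
      rw [e1, e2] at h1
      exact (hq i j hi hj).trans h1

end Pool.Agent.Y491.FP.RED
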