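import Pool.Agent.Y491.FP.Stm
import Pool.Agent.Y491.BF.T_DEC

/-!
Project FP (helper491), job SPL (helper849): cutting the linear extensions of an upper set at a
given height.
-/

set_option autoImplicit false

open Finset
open scoped Classical

namespace Pool.Agent.Y491.FP.SPL

open Pool.Agent.TH161.LW Pool.Agent.H13R3.WB Pool.Agent.Y491.BF Pool.Agent.Y491.BF.DEC
open Pool.Agent.Y491.FP

section

variable {α : Type} [Fintype α] [PartialOrder α]

theorem eF_eq {S : Finset α} {x y : α} (hx : x ∈ S) (hy : y ∈ S) :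
    eF S x y = cnt (Lf S) (fun f => f x < f y) := by
  unfold eF
  rw [dif_pos ⟨hx, hy⟩, eP_eq, ← cnt_def]
  have hcard : Fintype.card {a : α // a ∈ S} = S.card := Fintype.card_coe S
  refine Finset.card_bij (fun σ _ => fun a => if h : a ∈ S then ((σ ⟨a, h⟩ : Fin _) : ℕ) else 0)
    ?_ ?_ ?_
  · intro σ hσ
    have hm := (Finset.mem_filter.mp hσ).2.1
    have hxy := (Finset.mem_filter.mp hσ).2.2
    rw [Finset.mem_filter, mem_Lf]
    refine ⟨⟨fun a ha => by simp [ha], fun a ha => ?_, fun a ha b hb hab => ?_,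
      fun a ha b hb hab => ?_⟩, ?_⟩
    · simp only [ha, dite_true]
      have := (σ ⟨a, ha⟩).2
      omega
    · simp only [ha, hb, dite_true] at hab
      have h1 : σ ⟨a, ha⟩ = σ ⟨b, hb⟩ := Fin.ext hab
      have h2 := σ.injective h1
      exact congrArg Subtype.val h2
    · simp only [ha, hb, dite_true]
      have h1 : (⟨a, ha⟩ : {a : α // a ∈ S}) < ⟨b, hb⟩ := hab
      exact hm h1
    · simp only [hx, hy, dite_true]
      exact hxy
  · intro σ _ τ _ hst
    ext a
    have := congrFun hst a.1
    simp only [a.2, dite_true] at this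
    exact this
  · intro f hf
    obtain ⟨hf, hxy⟩ := Finset.mem_filter.mp hf
    rw [mem_Lf] at hf
    let g : {a : α // a ∈ S} → Fin (Fintype.card {a : α // a ∈ S}) :=
      fun a => ⟨f a.1, by have := hf.2.1 a.1 a.2; omega⟩
    have hg : Function.Bijective g := by
      rw [Fintype.bijective_iff_injective_and_card]
      refine ⟨fun a b hab => ?_, by simp⟩
      have h1 : f a.1 = f b.1 := congrArg Fin.val hab
      exact Subtype.ext (hf.2.2.1 a.1 a.2 b.1 b.2 h1)
    refine ⟨Equiv.ofBijective g hg, ?_, ?_⟩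
    · rw [Finset.mem_filter]
      exact ⟨by simp, fun a b hab => hf.2.2.2 a.1 a.2 b.1 b.2 hab, hxy⟩
    · funext a
      by_cases ha : a ∈ S
      · simp [ha, g]
      · simp [ha, hf.1 a ha]

/-- the first elements -/
theorem card_fst {S : Finset α} {f : α → ℕ} (hf : PS S f) {k : ℕ} (hk : k ≤ S.card) :
    (S.filter fun a => f a < k).card = k := by
  have h1 : (S.filter fun a => f a < k).image f = range k := by
    ext m
    rw [Finset.mem_image, Finset.mem_range]
    constructor
    · rintro ⟨a, ha, rfl⟩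
      exact (Finset.mem_filter.mp ha).2
    · intro hm
      obtain ⟨a, ha, rfl⟩ := hf.surj m (by omega)
      exact ⟨a, Finset.mem_filter.mpr ⟨ha, hm⟩, rfl⟩
  have h2 : ((S.filter fun a => f a < k).image f).card = (S.filter fun a => f a < k).card := by
    apply Finset.card_image_of_injOn
    intro a ha b hb hab
    exact hf.2.2.1 a (Finset.mem_filter.mp ha).1 b (Finset.mem_filter.mp hb).1 hab
  rw [← h2, h1, Finset.card_range]

/-- the general form of the formula -/
theorem gen (I : Finset α) (r : ℕ) (hI : Low I) (hr : I.card ≤ r) (hr' : r ≤ Fintype.card α)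
    (R : (α → ℕ) → Prop)
    (hR : ∀ A : Finset α, Low A → A.card = r → I ⊆ A → ∀ f g, PS (A \ I) f → PS Aᶜ g →
      (R (glue (A \ I) Aᶜ f g) ↔ R g)) :
    cnt (Lf Iᶜ) R = ∑ A ∈ univ.filter (fun A : Finset α => Low A ∧ A.card = r ∧ I ⊆ A),
      eS (A \ I) * cnt (Lf Aᶜ) R := by
  have hcI : (Iᶜ : Finset α).card = Fintype.card α - I.card := Finset.card_compl I
  have hle : r - I.card ≤ (Iᶜ : Finset α).card := by omega
  rw [← cnt_def]
  have hmaps : ∀ f ∈ (Lf (Iᶜ : Finset α)).filter R,
      (I ∪ (Iᶜ.filter fun a => f a < r - I.card)) ∈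
        univ.filter (fun A : Finset α => Low A ∧ A.card = r ∧ I ⊆ A) := by
    intro f hf
    obtain ⟨hf, -⟩ := Finset.mem_filter.mp hf
    rw [mem_Lf] at hf
    rw [Finset.mem_filter]
    refine ⟨Finset.mem_univ _, ?_, ?_, Finset.subset_union_left⟩
    · intro a b hab hb
      by_cases ha : a ∈ I
      · exact Finset.mem_union_left _ ha
      have hbI : b ∉ I := fun h => ha (hI a b hab h)
      have hb' := (Finset.mem_union.mp hb).resolve_left hbI
      obtain ⟨hb1, hb2⟩ := Finset.mem_filter.mp hb'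
      have ha' : a ∈ (Iᶜ : Finset α) := Finset.mem_compl.mpr ha
      refine Finset.mem_union_right _ (Finset.mem_filter.mpr ⟨ha', ?_⟩)
      rcases hab.lt_or_eq with h | h
      · exact (hf.2.2.2 a ha' b hb1 h).trans hb2
      · rw [h]
        exact hb2
    · rw [Finset.card_union_of_disjoint, card_fst hf hle]
      · omega
      · rw [Finset.disjoint_left]
        intro a ha ha'
        exact Finset.mem_compl.mp (Finset.mem_filter.mp ha').1 ha
  rw [Finset.card_eq_sum_card_fiberwise hmaps]
  apply Finset.sum_congr rfl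
  intro A hA
  obtain ⟨-, hA1, hA2, hA3⟩ := Finset.mem_filter.mp hA
  have hdisj : Disjoint (A \ I) Aᶜ := by
    rw [Finset.disjoint_left]
    intro a ha ha'
    exact Finset.mem_compl.mp ha' (Finset.mem_sdiff.mp ha).1
  have hst : ∀ s ∈ A \ I, ∀ t ∈ (Aᶜ : Finset α), ¬ t < s := by
    intro s hs t ht hts
    exact Finset.mem_compl.mp ht (hA1 t s hts.le (Finset.mem_sdiff.mp hs).1)
  have hun : (A \ I) ∪ Aᶜ = Iᶜ := by
    ext a
    rw [Finset.mem_union, Finset.mem_sdiff, Finset.mem_compl, Finset.mem_compl]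
    constructor
    · rintro (h | h)
      · exact h.2
      · exact fun h' => h (hA3 h')
    · intro h
      by_cases ha : a ∈ A
      · exact Or.inl ⟨ha, h⟩
      · exact Or.inr ha
  have hcA : (A \ I).card = r - I.card := by
    rw [Finset.card_sdiff_of_subset hA3, hA2]
  have key := split hdisj hst (fun _ => True) R R (fun f g hf hg => by
    rw [hR A hA1 hA2 hA3 f g hf hg]
    simp)
  rw [hun, cnt_true, ← eS_eq] at key
  rw [← key, Finset.filter_filter, cnt_def]
  apply cnt_congr
  intro f hf
  rw [mem_Lf] at hf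
  constructor
  · rintro ⟨h1, h2⟩
    refine ⟨fun s hs => ?_, h1⟩
    rw [hcA]
    obtain ⟨hs1, hs2⟩ := Finset.mem_sdiff.mp hs
    rw [← h2] at hs1
    exact (Finset.mem_filter.mp ((Finset.mem_union.mp hs1).resolve_left hs2)).2
  · rintro ⟨h1, h2⟩
    refine ⟨h2, ?_⟩
    have h3 : A \ I = (Iᶜ.filter fun a => f a < r - I.card) := by
      apply Finset.eq_of_subset_of_card_le
      · intro s hs
        refine Finset.mem_filter.mpr ⟨Finset.mem_compl.mpr (Finset.mem_sdiff.mp hs).2, ?_⟩
        have := h1 s hs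
        rwa [hcA] at this
      · rw [card_fst hf hle, hcA]
    rw [← h3]
    exact Finset.union_sdiff_of_subset hA3

end

theorem t_SPL : S_SPL := by
  intro α _ _ I r hI hr hr'
  refine ⟨?_, fun x y hxy => ?_⟩
  · have h := gen I r hI hr hr' (fun _ => True) (fun _ _ _ _ _ _ _ _ => Iff.rfl)
    rw [cnt_true, ← eS_eq] at h
    rw [h]
    apply Finset.sum_congr rfl
    intro A _
    rw [cnt_true, ← eS_eq]
  · by_cases hI' : x ∈ I ∨ y ∈ I
    · have h0 : eF Iᶜ x y = 0 := by
        unfold eF
        rw [dif_neg]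
        rintro ⟨h1, h2⟩
        rcases hI' with h | h
        · exact Finset.mem_compl.mp h1 h
        · exact Finset.mem_compl.mp h2 h
      rw [h0]
      symm
      apply Finset.sum_eq_zero
      intro A hA
      obtain ⟨-, hA1, hA2, hA3⟩ := Finset.mem_filter.mp hA
      obtain ⟨h1, h2⟩ := hxy A hA1 hA2
      rcases hI' with h | h
      · exact absurd (hA3 h) h1
      · exact absurd (hA3 h) h2
    · rw [not_or] at hI'
      rw [eF_eq (Finset.mem_compl.mpr hI'.1) (Finset.mem_compl.mpr hI'.2)]
      rw [gen I r hI hr hr' (fun f => f x < f y)]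
      · apply Finset.sum_congr rfl
        intro A hA
        obtain ⟨-, hA1, hA2, hA3⟩ := Finset.mem_filter.mp hA
        obtain ⟨h1, h2⟩ := hxy A hA1 hA2
        rw [eF_eq (Finset.mem_compl.mpr h1) (Finset.mem_compl.mpr h2)]
      · intro A hA1 hA2 hA3 f g hf hg
        obtain ⟨h1, h2⟩ := hxy A hA1 hA2
        have hdisj : Disjoint (A \ I) Aᶜ := by
          rw [Finset.disjoint_left]
          intro a ha ha'
          exact Finset.mem_compl.mp ha' (Finset.mem_sdiff.mp ha).1
        have e1 : glue (A \ I) Aᶜ f g x = (A \ I).card + g x :=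
          glue_T hdisj (Finset.mem_compl.mpr h1)
        have e2 : glue (A \ I) Aᶜ f g y = (A \ I).card + g y :=
          glue_T hdisj (Finset.mem_compl.mpr h2)
        show glue (A \ I) Aᶜ f g x < glue (A \ I) Aᶜ f g y ↔ g x < g y
        rw [e1, e2]
        omega

end Pool.Agent.Y491.FP.SPL
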