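import Pool.Agent.Y491.FP.T_SPL

/-!
Project FP (helper491), job SUM (helper849): between two cuts nothing changes.
-/

set_option autoImplicit false

open Finset
open scoped Classical

namespace Pool.Agent.Y491.FP.SUM

open Pool.Agent.TH161.LW Pool.Agent.H13R3.WB Pool.Agent.Y491.BF Pool.Agent.Y491.BF.DEC
open Pool.Agent.Y491.FP

lemma eN_pos (P : Type) [Fintype P] [PartialOrder P] : 0 < eN P := by
  unfold eN
  rw [Nat.card_pos_iff]
  refine ⟨?_, inferInstance⟩
  let _ : Fintype (LinearExtension P) := inferInstanceAs (Fintype P)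
  let e : Fin (Fintype.card P) ≃o LinearExtension P :=
    monoEquivOfFin (LinearExtension P) rfl
  let σ : P ≃ Fin (Fintype.card P) := e.symm.toEquiv
  refine ⟨σ, ?_⟩
  have hm : Monotone (toLinearExtension : P → LinearExtension P) := toLinearExtension.monotone
  intro a b hab
  refine lt_of_le_of_ne ?_ (fun h => hab.ne (σ.injective h))
  exact e.symm.monotone (hm hab.le)

lemma prob_eq (P : Type) [Fintype P] [PartialOrder P] (x y : P) :
    prob P x y = (eP P x y : ℝ) / eN P := by
  unfold prob eP eN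
  have h : ∀ f : P ≃ Fin (Fintype.card P), Monotone ⇑f ↔ StrictMono ⇑f := fun f =>
    ⟨fun h => h.strictMono_of_injective f.injective, fun h => h.monotone⟩
  simp only [h]

lemma prob_nonneg (P : Type) [Fintype P] [PartialOrder P] (x y : P) : 0 ≤ prob P x y := by
  rw [prob_eq]
  positivity

section

variable {α : Type} [Fintype α] [PartialOrder α]

theorem two {S T : Finset α} (hd : Disjoint S T) (hst : ∀ s ∈ S, ∀ t ∈ T, s < t)
    (P Q R : (α → ℕ) → Prop)
    (hR : ∀ f g, PS S f → PS T g → (R (glue S T f g) ↔ P f ∧ Q g)) :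
    cnt (Lf (S ∪ T)) R = cnt (Lf S) P * cnt (Lf T) Q := by
  rw [← split hd (fun s hs t ht hts => lt_asymm hts (hst s hs t ht)) P Q R hR]
  apply cnt_congr
  intro f hf
  rw [mem_Lf] at hf
  refine ⟨fun h => ⟨fun s hs => ?_, h⟩, fun h => h.2⟩
  have hc : (S ∪ T).card = S.card + T.card := Finset.card_union_of_disjoint hd
  have h1 := hf.2.1 s (Finset.mem_union_left _ hs)
  have h2 : (T.image f).card = T.card := Finset.card_image_of_injOn (fun a ha b hb hab =>
    hf.2.2.1 a (Finset.mem_union_right _ ha) b (Finset.mem_union_right _ hb) hab)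
  have h3 : T.image f ⊆ Finset.Ioo (f s) (S ∪ T).card := by
    intro v hv
    obtain ⟨t, ht, rfl⟩ := Finset.mem_image.mp hv
    exact Finset.mem_Ioo.mpr ⟨hf.2.2.2 s (Finset.mem_union_left _ hs) t
      (Finset.mem_union_right _ ht) (hst s hs t ht), hf.2.1 t (Finset.mem_union_right _ ht)⟩
  have h4 := Finset.card_le_card h3
  rw [Nat.card_Ioo, h2] at h4
  omega

theorem eP_cnt (x y : α) : eP α x y = cnt (Lf (univ : Finset α)) (fun f => f x < f y) := by
  rw [← LE_eq (fun σ => σ x < σ y) (fun f => f x < f y) (fun σ => Iff.rfl), eP_eq]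
  unfold nn Pool.Agent.Y491.BF.LE
  refine congrArg Finset.card (Finset.ext fun σ => ?_)
  simp only [Finset.mem_filter, Finset.mem_univ, true_and]

theorem eN_cnt : eN α = cnt (Lf (univ : Finset α)) (fun _ => True) := by
  rw [← LE_eq (fun _ => True) (fun _ => True) (fun σ => Iff.rfl), eN_eq]
  unfold nn Pool.Agent.Y491.BF.LE
  rw [Finset.filter_true]

theorem sum3 {I J U : Finset α} (hu : I ∪ (J ∪ U) = univ) (hIJ : ∀ a ∈ I, ∀ b ∈ J ∪ U, a < b)
    (hJU : ∀ a ∈ J, ∀ b ∈ U, a < b) {x y : α} (hx : x ∈ J) (hy : y ∈ J) :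
    prob α x y = prob {a : α // a ∈ J} ⟨x, hx⟩ ⟨y, hy⟩ := by
  have hd1 : Disjoint I (J ∪ U) := by
    rw [Finset.disjoint_left]
    intro a ha hb
    exact lt_irrefl _ (hIJ a ha a hb)
  have hd2 : Disjoint J U := by
    rw [Finset.disjoint_left]
    intro a ha hb
    exact lt_irrefl _ (hJU a ha a hb)
  have hxJ : x ∈ J ∪ U := Finset.mem_union_left _ hx
  have hyJ : y ∈ J ∪ U := Finset.mem_union_left _ hy
  have e1 : eP α x y = eS I * (eP {a : α // a ∈ J} ⟨x, hx⟩ ⟨y, hy⟩ * eS U) := by
    have k1 := two hd1 hIJ (fun _ => True) (fun g => g x < g y) (fun f => f x < f y)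
      (fun f g _ _ => by
        show glue I (J ∪ U) f g x < glue I (J ∪ U) f g y ↔ _
        rw [glue_T hd1 hxJ, glue_T hd1 hyJ, true_and]
        omega)
    have k2 := two hd2 hJU (fun f => f x < f y) (fun _ => True) (fun f => f x < f y)
      (fun f g _ _ => by
        show glue J U f g x < glue J U f g y ↔ _
        rw [glue_S hx, glue_S hy, and_true])
    rw [hu, k2, cnt_true, cnt_true, ← eS_eq, ← eS_eq, ← eP_cnt, ← SPL.eF_eq hx hy] at k1
    rw [k1]
    unfold eF
    rw [dif_pos ⟨hx, hy⟩]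
  have e2 : eN α = eS I * (eN {a : α // a ∈ J} * eS U) := by
    have k1 := two hd1 hIJ (fun _ => True) (fun _ => True) (fun _ => True)
      (fun f g _ _ => by simp)
    have k2 := two hd2 hJU (fun _ => True) (fun _ => True) (fun _ => True)
      (fun f g _ _ => by simp)
    rw [hu, ← eN_cnt, k2, cnt_true, cnt_true, cnt_true, ← eS_eq, ← eS_eq, ← eS_eq] at k1
    exact k1
  have p1 : (0 : ℝ) < eS I := by exact_mod_cast eN_pos {a : α // a ∈ I}
  have p2 : (0 : ℝ) < eS U := by exact_mod_cast eN_pos {a : α // a ∈ U}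
  have p3 : (0 : ℝ) < eN {a : α // a ∈ J} := by exact_mod_cast eN_pos {a : α // a ∈ J}
  rw [prob_eq, prob_eq, e1, e2]
  push_cast
  field_simp

end

/-- the label -/
def lb {n : ℕ} {p : NP n} (a : p.El) : ℕ := Fin.val (n := n) a

lemma lb_lt {n : ℕ} {p : NP n} (a : p.El) : lb a < n := Fin.isLt (n := n) a

lemma lb_inj {n : ℕ} {p : NP n} {a b : p.El} (h : lb a = lb b) : a = b := Fin.ext (n := n) h

lemma le_def {n : ℕ} {p : NP n} {a b : p.El} : a ≤ b ↔ p.rel (lb a) (lb b) := Iff.rfl

lemma lb_mk {n : ℕ} {p : NP n} (i : ℕ) (h : i < n) : lb (p.mk' i h) = i := rfl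

/-- the part between the cuts -/
noncomputable def mid {n : ℕ} (p : NP n) (s t : ℕ) : Finset p.El :=
  univ.filter fun a => s ≤ lb a ∧ lb a < t

lemma mem_mid {n : ℕ} {p : NP n} {s t : ℕ} {a : p.El} : a ∈ mid p s t ↔ s ≤ lb a ∧ lb a < t := by
  unfold mid
  rw [Finset.mem_filter]
  simp

/-- it is isomorphic to the window -/
noncomputable def midIso {n : ℕ} (p : NP n) (s t : ℕ) (h : t ≤ n) :
    {a : p.El // a ∈ mid p s t} ≃o (p.win s t h).El where
  toFun a := (p.win s t h).mk' (lb a.1 - s) (by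
    have := mem_mid.mp a.2
    omega)
  invFun b := ⟨p.mk' (s + lb b) (by
    have := lb_lt b
    omega), mem_mid.mpr (by
      rw [lb_mk]
      have := lb_lt b
      omega)⟩
  left_inv a := by
    apply Subtype.ext
    apply lb_inj
    have := mem_mid.mp a.2
    show s + (lb a.1 - s) = lb a.1
    omega
  right_inv b := by
    apply lb_inj
    show s + lb b - s = lb b
    omega
  map_rel_iff' := by
    intro a b
    have h1 := mem_mid.mp a.2
    have h2 := mem_mid.mp b.2
    show p.rel (s + (lb a.1 - s)) (s + (lb b.1 - s)) ↔ p.rel (lb a.1) (lb b.1)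
    rw [show s + (lb a.1 - s) = lb a.1 by omega, show s + (lb b.1 - s) = lb b.1 by omega]

theorem key (h2 : S_ISO) {n : ℕ} (p : NP n) (s t : ℕ) (h : t ≤ n)
    (hs : ∀ i j, i < s → s ≤ j → j < n → p.rel i j)
    (ht : ∀ i j, i < t → t ≤ j → j < n → p.rel i j) (x y : p.El) (hx : x ∈ mid p s t)
    (hy : y ∈ mid p s t) :
    prob p.El x y = prob (p.win s t h).El (midIso p s t h ⟨x, hx⟩) (midIso p s t h ⟨y, hy⟩) := by
  have hx' := mem_mid.mp hx
  have hst : s < t := by omega
  rw [← (h2 _ _ (midIso p s t h)).1]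
  refine sum3 (I := univ.filter fun a : p.El => lb a < s)
    (U := univ.filter fun a : p.El => t ≤ lb a) ?_ ?_ ?_ hx hy
  · ext a
    simp only [Finset.mem_union, Finset.mem_filter, Finset.mem_univ, true_and, iff_true, mem_mid]
    omega
  · intro a ha b hb
    have ha' : lb a < s := (Finset.mem_filter.mp ha).2
    have hb' : s ≤ lb b := by
      rcases Finset.mem_union.mp hb with h | h
      · exact (mem_mid.mp h).1
      · exact hst.le.trans (Finset.mem_filter.mp h).2
    refine lt_of_le_of_ne (le_def.mpr (hs _ _ ha' hb' (lb_lt b))) ?_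
    rintro rfl
    omega
  · intro a ha b hb
    have ha' := (mem_mid.mp ha).2
    have hb' : t ≤ lb b := (Finset.mem_filter.mp hb).2
    refine lt_of_le_of_ne (le_def.mpr (ht _ _ ha' hb' (lb_lt b))) ?_
    rintro rfl
    omega

theorem t_SUM (h : S_SPL) (h2 : S_ISO) : S_SUM := by
  intro n p s t x y h hs ht h1 h3 h4 h5
  have hx : x < n := by omega
  have hy : y < n := by omega
  have hx' : x - s < t - s := by omega
  have hy' : y - s < t - s := by omega
  unfold pp
  rw [dif_pos ⟨hx, hy⟩, dif_pos ⟨hx', hy'⟩]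
  exact key h2 p s t h hs ht (p.mk' x hx) (p.mk' y hy) (mem_mid.mpr ⟨h1, h3⟩)
    (mem_mid.mpr ⟨h4, h5⟩)

theorem t_BAL (h : S_SUM) : S_BAL := by
  intro n p s t h1 hs ht
  have hb : BddAbove (Set.range fun q : p.El × p.El =>
      min (prob p.El q.1 q.2) (prob p.El q.2 q.1)) := (Set.finite_range _).bddAbove
  have h0 : 0 ≤ balance p.El := by
    unfold balance
    exact Real.iSup_nonneg fun q => le_min (prob_nonneg _ _ _) (prob_nonneg _ _ _)
  rcases isEmpty_or_nonempty ((p.win s t h1).El × (p.win s t h1).El) with he | he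
  · have : balance (p.win s t h1).El = 0 := by
      unfold balance
      exact Real.iSup_of_isEmpty _
    rw [this]
    exact h0
  · have hpp : ∀ a b : (p.win s t h1).El, ∃ (ha : s + lb a < n) (hb : s + lb b < n),
        prob (p.win s t h1).El a b = prob p.El (p.mk' (s + lb a) ha) (p.mk' (s + lb b) hb) := by
      intro a b
      have ha := lb_lt a
      have hb := lb_lt b
      refine ⟨by omega, by omega, ?_⟩
      have h3 := h n p s t (s + lb a) (s + lb b) h1 hs ht (by omega) (by omega) (by omega)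
        (by omega)
      have ha1 : s + lb a < n := by omega
      have hb1 : s + lb b < n := by omega
      have ha2 : s + lb a - s < t - s := by omega
      have hb2 : s + lb b - s < t - s := by omega
      unfold pp at h3
      rw [dif_pos ⟨ha1, hb1⟩, dif_pos ⟨ha2, hb2⟩] at h3
      rw [h3]
      congr 1
      · apply lb_inj
        show lb a = s + lb a - s
        omega
      · apply lb_inj
        show lb b = s + lb b - s
        omega
    unfold balance
    refine ciSup_le fun q => ?_
    obtain ⟨a, b⟩ := q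
    obtain ⟨ha, hb1, e1⟩ := hpp a b
    obtain ⟨hb2, ha2, e2⟩ := hpp b a
    show min (prob (p.win s t h1).El a b) (prob (p.win s t h1).El b a) ≤ _
    rw [e1, e2]
    exact le_ciSup hb (p.mk' (s + lb a) ha, p.mk' (s + lb b) hb1)

end Pool.Agent.Y491.FP.SUM
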