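import Pool.Agent.Y491.FP.Asm
import Pool.Agent.Y491.FP.T_SPL
import Pool.Agent.Y491.FP.T_DOE
import Pool.Agent.Y491.FP.T_ISO
import Pool.Agent.Y491.FP.T_LOW
import Pool.Agent.Y491.FP.T_HIGH
import Pool.Agent.Y491.FP.T_LOC
import Pool.Agent.Y491.FP.T_SUM
import Pool.Agent.Y491.FP.T_BAND
import Pool.Agent.Y491.FP.T_RED
import Pool.Agent.Y491.FP.T_LIRR
import Pool.Agent.Y491.FP.T_BLK
import Pool.Agent.Y491.FP.T_NUM
import Pool.Agent.Y455.FP.Glu
import Pool.Agent.Y455.FP.Cmp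
import Pool.Agent.TH447.KL.Inc

/-!
# Project FP: the two main theorems without hypotheses, and consequences

`N B ε = exp (exp (exp (B log(2/ε)³ / ε⁴)))`.
-/

set_option autoImplicit false

open Finset
open scoped Classical

namespace Pool.Agent.Y491.FP

open Pool.Agent.TH161.LW Pool.Agent.H13R3.WB Pool.Agent.H931R3.Bal Pool.Agent.TH447.KL

theorem hDOE : S_DOE := DOE.t_DOE SPL.t_SPL
theorem hLOW : S_LOW := LOW.t_LOW hDOE ISO.t_ISO
theorem hHIGH : S_HIGH := HIGH.t_HIGH hLOW ISO.t_ISO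
theorem hLOC : S_LOC := LOC.t_LOC hLOW hHIGH
theorem hSUM : S_SUM := SUM.t_SUM SPL.t_SPL ISO.t_ISO
theorem hBAL : S_BAL := SUM.t_BAL hSUM
theorem hGLU : S_GLU := Pool.Agent.Y455.FP.Glu.t_GLU BAND.t_BAND
theorem hRED : S_RED := RED.t_RED hGLU RED.t_PIG
theorem hCMP : S_CMP := Pool.Agent.Y455.FP.Cmp.t_CMP hLOC BAND.t_BAND ISO.t_HALF
theorem hLIRR : S_LIRR := LIRR.t_LIRR BAND.t_BAND

theorem main1 : S_T1 := T1_of ISO.t_ISO LOC.t_WTH hRED hCMP hLIRR LIRR.t_EXT LIRR.t_NOTD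
  BLK.t_BLK hBAL ISO.t_HALF NUM.t_NUM

theorem main2 : S_T2 := T2_of ISO.t_ISO hRED hCMP BAND.t_ANT BAND.t_TRA LIRR.t_EXT ISO.t_HALF
  NUM.t_NUM

/-- finite certificates for the gap -/
theorem main1' : ∃ B : ℝ, 0 < B ∧
    (∀ ε : ℝ, 0 < ε → ε ≤ 1 / 2 →
      ∀ (P : Type) [Fintype P] [PartialOrder P] [Nonempty P], ¬ InD P →
      ∃ (Q : Type) (_ : Fintype Q) (_ : PartialOrder Q), Nonempty Q ∧ ¬ InD Q ∧
        (Fintype.card Q : ℝ) ≤ Real.exp (Real.exp (Real.exp (B * Real.log (2 / ε) ^ 3 / ε ^ 4))) ∧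
        balance Q ≤ balance P + ε) ∧
    ((∃ ε : ℝ, 0 < ε ∧ ∀ (P : Type) [Fintype P] [PartialOrder P] [Nonempty P], ¬ InD P →
        1 / 3 + ε ≤ balance P) ↔
      ∃ ε : ℝ, 0 < ε ∧ ε ≤ 1 / 2 ∧
        ∀ (Q : Type) [Fintype Q] [PartialOrder Q] [Nonempty Q], ¬ InD Q →
        (Fintype.card Q : ℝ) ≤ Real.exp (Real.exp (Real.exp (B * Real.log (2 / ε) ^ 3 / ε ^ 4))) →
        1 / 3 + 2 * ε ≤ balance Q) := by
  obtain ⟨B, hB, h⟩ := main1
  refine ⟨B, hB, h, ?_, ?_⟩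
  · rintro ⟨ε, hε, h1⟩
    refine ⟨min (ε / 2) (1 / 2), by positivity, min_le_right _ _, ?_⟩
    intro Q _ _ _ hQ _
    have h2 := h1 Q hQ
    have h3 := min_le_left (ε / 2) (1 / 2 : ℝ)
    linarith
  · rintro ⟨ε, hε, hε2, h1⟩
    refine ⟨ε, hε, ?_⟩
    intro P _ _ _ hP
    obtain ⟨Q, i1, i2, hne, hQ, hc, hb⟩ := h ε hε hε2 P hP
    have h2 := @h1 Q i1 i2 hne hQ hc
    linarith

/-- the bound is monotone in the constant and can absorb the halving of `ε` -/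
theorem N_half {B ε : ℝ} (hB : 0 < B) (hε : 0 < ε) (hε2 : ε ≤ 1 / 2) :
    Real.exp (Real.exp (Real.exp (B * Real.log (2 / (ε / 2)) ^ 3 / (ε / 2) ^ 4))) ≤
      Real.exp (Real.exp (Real.exp (128 * B * Real.log (2 / ε) ^ 3 / ε ^ 4))) := by
  rw [Real.exp_le_exp, Real.exp_le_exp, Real.exp_le_exp]
  have h1 : Real.log (2 / (ε / 2)) ≤ 2 * Real.log (2 / ε) := by
    have h2 : 2 / (ε / 2) = 4 / ε := by field_simp; norm_num
    rw [h2]
    exact NUM.log_four hε hε2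
  have h4 : 0 ≤ Real.log (2 / (ε / 2)) := by
    apply Real.log_nonneg
    rw [le_div_iff₀ (by positivity)]
    linarith
  have h5 : Real.log (2 / (ε / 2)) ^ 3 ≤ (2 * Real.log (2 / ε)) ^ 3 := pow_le_pow_left₀ h4 h1 3
  have h6 : B * Real.log (2 / (ε / 2)) ^ 3 / (ε / 2) ^ 4 =
      16 * (B * Real.log (2 / (ε / 2)) ^ 3) / ε ^ 4 := by
    field_simp
    ring
  rw [h6]
  apply div_le_div_of_nonneg_right _ (by positivity)
  calc 16 * (B * Real.log (2 / (ε / 2)) ^ 3) = (16 * B) * Real.log (2 / (ε / 2)) ^ 3 := by ring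
    _ ≤ (16 * B) * (2 * Real.log (2 / ε)) ^ 3 := mul_le_mul_of_nonneg_left h5 (by positivity)
    _ = 128 * B * Real.log (2 / ε) ^ 3 := by ring

theorem dAll_le {w : ℕ} (hw : 1 ≤ w) {P : Type} [Fintype P] [PartialOrder P]
    (hP : HasWidth P w) : dAll w ≤ balance P := by
  unfold dAll
  apply csInf_le
  · apply bdd w hw
    rintro d ⟨Q, i1, i2, h4, h5⟩
    exact ⟨Q, i1, i2, h4, h5⟩
  · exact ⟨P, _, _, hP, rfl⟩

/-- finite certificates for the strict increase -/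
theorem main2' : ∃ B : ℝ, 0 < B ∧
    (∀ (ε : ℝ) (w : ℕ), 0 < ε → ε ≤ 1 / 2 → 2 ≤ w →
      (∀ (P : Type) [Fintype P] [PartialOrder P], HasWidth P w →
        ∃ (Q : Type) (_ : Fintype Q) (_ : PartialOrder Q), HasWidth Q w ∧
          (Fintype.card Q : ℝ) ≤ max (w : ℝ)
            (Real.exp (Real.exp (Real.exp (B * Real.log (2 / ε) ^ 3 / ε ^ 4)))) ∧
          balance Q ≤ balance P + ε) ∧
      ∃ (Q : Type) (_ : Fintype Q) (_ : PartialOrder Q), HasWidth Q w ∧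
        (Fintype.card Q : ℝ) ≤ max (w : ℝ)
          (Real.exp (Real.exp (Real.exp (B * Real.log (2 / ε) ^ 3 / ε ^ 4)))) ∧
        dAll w ≤ balance Q ∧ balance Q ≤ dAll w + ε) ∧
    (∀ w : ℕ, 2 ≤ w → (dAll w < dAll (w + 1) ↔
      ∃ ε : ℝ, 0 < ε ∧ ε ≤ 1 / 2 ∧
        ∃ (Q : Type) (_ : Fintype Q) (_ : PartialOrder Q), HasWidth Q w ∧
          (Fintype.card Q : ℝ) ≤ max (w : ℝ)
            (Real.exp (Real.exp (Real.exp (B * Real.log (2 / ε) ^ 3 / ε ^ 4)))) ∧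
          ∀ (R : Type) [Fintype R] [PartialOrder R], HasWidth R (w + 1) →
            (Fintype.card R : ℝ) ≤ max ((w : ℝ) + 1)
              (Real.exp (Real.exp (Real.exp (B * Real.log (2 / ε) ^ 3 / ε ^ 4)))) →
            balance Q + ε < balance R)) := by
  obtain ⟨B, hB, h⟩ := main2
  have key : ∀ (ε : ℝ) (w : ℕ), 0 < ε → ε ≤ 1 / 2 → 2 ≤ w →
      (∀ (P : Type) [Fintype P] [PartialOrder P], HasWidth P w →
        ∃ (Q : Type) (_ : Fintype Q) (_ : PartialOrder Q), HasWidth Q w ∧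
          (Fintype.card Q : ℝ) ≤ max (w : ℝ)
            (Real.exp (Real.exp (Real.exp (128 * B * Real.log (2 / ε) ^ 3 / ε ^ 4)))) ∧
          balance Q ≤ balance P + ε / 2) := by
    intro ε w hε hε2 hw P _ _ hP
    obtain ⟨Q, i1, i2, h1, h2, h3, h4⟩ := h (ε / 2) (by positivity) (by linarith) w P hw hP.1 hP.2
    exact ⟨Q, i1, i2, ⟨h1, h2⟩, h3.trans (max_le_max le_rfl (N_half hB hε hε2)), h4⟩
  have key2 : ∀ (ε : ℝ) (w : ℕ), 0 < ε → ε ≤ 1 / 2 → 2 ≤ w →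
      ∃ (Q : Type) (_ : Fintype Q) (_ : PartialOrder Q), HasWidth Q w ∧
        (Fintype.card Q : ℝ) ≤ max (w : ℝ)
          (Real.exp (Real.exp (Real.exp (128 * B * Real.log (2 / ε) ^ 3 / ε ^ 4)))) ∧
        dAll w ≤ balance Q ∧ balance Q ≤ dAll w + ε := by
    intro ε w hε hε2 hw
    have hne : {d : ℝ | ∃ (P : Type) (_ : Fintype P) (_ : PartialOrder P),
        HasWidth P w ∧ balance P = d}.Nonempty := by
      obtain ⟨P, i1, i2, h1, -, -⟩ := exists_few w (by omega)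
      exact ⟨_, P, i1, i2, h1, rfl⟩
    obtain ⟨d, ⟨P, i1, i2, hP, rfl⟩, hd⟩ := exists_lt_of_csInf_lt hne
      (show dAll w < dAll w + ε / 2 by linarith)
    obtain ⟨Q, j1, j2, h1, h2, h3⟩ := key ε w hε hε2 hw P hP
    exact ⟨Q, j1, j2, h1, h2, dAll_le (by omega) h1, by linarith⟩
  refine ⟨128 * B, by positivity, ?_, ?_⟩
  · intro ε w hε hε2 hw
    refine ⟨?_, key2 ε w hε hε2 hw⟩
    intro P _ _ hP
    obtain ⟨Q, j1, j2, h1, h2, h3⟩ := key ε w hε hε2 hw P hP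
    exact ⟨Q, j1, j2, h1, h2, by linarith⟩
  · intro w hw
    constructor
    · intro hlt
      refine ⟨min ((dAll (w + 1) - dAll w) / 3) (1 / 2), ?_, min_le_right _ _, ?_⟩
      · apply lt_min _ (by norm_num)
        linarith
      · have h0 : 0 < min ((dAll (w + 1) - dAll w) / 3) (1 / 2 : ℝ) := by
          apply lt_min _ (by norm_num)
          linarith
        have h3 := min_le_left ((dAll (w + 1) - dAll w) / 3) (1 / 2 : ℝ)
        obtain ⟨Q, j1, j2, h1, h2, h4, h5⟩ := key2 _ w h0 (min_le_right _ _) hw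
        refine ⟨Q, j1, j2, h1, h2, ?_⟩
        intro R _ _ hR _
        have h6 : dAll (w + 1) ≤ balance R := dAll_le (by omega) hR
        linarith
    · rintro ⟨ε, hε, hε2, Q, j1, j2, h1, h2, h3⟩
      obtain ⟨R, k1, k2, h4, h5, h6, h7⟩ := key2 ε (w + 1) hε hε2 (by omega)
      have h8 := @h3 R k1 k2 h4 (by push_cast at h5; exact h5)
      have h9 : dAll w ≤ balance Q := dAll_le (by omega) h1
      linarith

end Pool.Agent.Y491.FP
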